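import Pool.Agent.Helper6.IC.BDefs

/-!
# Programs for tree evaluation which inspect few cells: the counting for blocks of two levels
-/

namespace Pool.Agent.Helper18.IC

open Pool.Agent.Helper5.TreeExp Pool.Agent.Helper6.IC

variable {d k : ℕ}

instance finite_code {T m : ℕ} : {n : ℕ} → (s : BSel d n) → Finite (Code T m s)
  | _, .empty => inferInstanceAs (Finite Unit)
  | _, .self => inferInstanceAs (Finite (Fin m))
  | _, .node g s =>
    have : ∀ i c, Finite (Code T m (s i c)) := fun i c => finite_code (s i c)
    inferInstanceAs (Finite (Fin (if g then T else 1) × ∀ i c, Code T m (s i c)))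

theorem card_code {T m : ℕ} : {n : ℕ} → (s : BSel d n) → Nat.card (Code T m s) = T ^ s.groups * m ^ s.size
  | _, .empty => by
    show Nat.card Unit = T ^ 0 * m ^ 0
    simp
  | _, .self => by
    show Nat.card (Fin m) = T ^ 0 * m ^ 1
    simp
  | _, .node g s => by
    show Nat.card (Fin (if g then T else 1) × ∀ i c, Code T m (s i c)) =
      T ^ ((if g then 1 else 0) + ∑ i, ∑ c, (s i c).groups) * m ^ (∑ i, ∑ c, (s i c).size)
    rw [Nat.card_prod, Nat.card_pi, pow_add, ← Finset.prod_pow_eq_pow_sum, ← Finset.prod_pow_eq_pow_sum]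
    have h : ∏ i, Nat.card (∀ c, Code T m (s i c)) =
        (∏ i, T ^ (∑ c, (s i c).groups)) * ∏ i, m ^ (∑ c, (s i c).size) := by
      rw [← Finset.prod_mul_distrib]
      refine Finset.prod_congr rfl fun i _ => ?_
      rw [Nat.card_pi, ← Finset.prod_pow_eq_pow_sum, ← Finset.prod_pow_eq_pow_sum, ← Finset.prod_mul_distrib]
      exact Finset.prod_congr rfl fun c _ => card_code (s i c)
    rw [h, ← mul_assoc]
    congr 2
    cases g <;> simp

theorem toSel_size : {n : ℕ} → (s : BSel d n) → s.toSel.size = s.size
  | _, .empty => rfl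
  | _, .self => rfl
  | _, .node g s => by
    show ∑ i, ∑ c, (s i c).toSel.size = ∑ i, ∑ c, (s i c).size
    exact Finset.sum_congr rfl fun i _ => Finset.sum_congr rfl fun c _ => toSel_size (s i c)

theorem rankAt_unique {T m : ℕ} : {n : ℕ} → (s : BSel d n) → (a : Code T m s) → s = .self → (r r' : ℕ) →
    RankAt m T s a r → RankAt m T s a r' → r = r'
  | _, .self, _, _, _, _, h, h' => h.symm.trans h'
  | _, .empty, _, h0, _, _, _, _ => by exact absurd h0 (by simp)
  | _, .node _ _, _, h0, _, _, _, _ => by exact absurd h0 (by simp)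

theorem held_trans {W : Type} {o : ℕ → W} {a b c : W} (h : Held o a b) (h' : Held o b c) : Held o a c := by
  obtain ⟨m, hm, hm'⟩ := h
  obtain ⟨t, ht, ht'⟩ := h'
  have hmt : m < t := by
    by_contra hc
    exact hm' t (by omega) ht
  exact ⟨m, hm, fun j hj => ht' j (by omega)⟩

theorem bef_trans {W : Type} {o : ℕ → W} {p p' : W} (hp : Held o p p') : {n : ℕ} → (s : BSel d n) →
    (e : Var d k n → W) → (I : Var d k n → Fin k) → Bef o p e s I → Bef o p' e s I
  | _, .empty, _, _, _ => trivial
  | _, .self, _, _, _ => trivial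
  | _ + 2, .node _ s, e, I, h => ⟨fun hg => held_trans (h.1 hg) hp, fun i c =>
      bef_trans hp (s i c) (e2 e i c) (sub2 I i c) (h.2 i c)⟩

theorem rank_eq {f : (Fin d → Fin k) → Fin k} {x x' : Fin d → Fin k} {c : Fin d} {y : Fin k}
    (hx : ∀ c', c' ≠ c → x c' = x' c') (h : f x = y) (h' : f x' = y)
    (hr : rank f x c y (x c) = rank f x' c y (x' c)) : x c = x' c := by
  have hup : ∀ t, Function.update x c t = Function.update x' c t := by
    intro t
    funext c'
    by_cases hc : c' = c
    · subst hc
      simp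
    · rw [Function.update_of_ne hc, Function.update_of_ne hc, hx c' hc]
  have hux : Function.update x c (x c) = x := Function.update_eq_self c x
  have hux' : Function.update x c (x' c) = x' := by
    rw [hup]
    exact Function.update_eq_self c x'
  unfold rank at hr
  rcases lt_trichotomy (x c) (x' c) with hlt | heq | hgt
  · exfalso
    have hss : {t' : Fin k | t' < x c ∧ f (Function.update x c t') = y} ⊂
        {t' : Fin k | t' < x' c ∧ f (Function.update x' c t') = y} := by
      refine (Set.ssubset_iff_of_subset ?_).2 ⟨x c, ⟨hlt, ?_⟩, fun hh => lt_irrefl _ hh.1⟩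
      · rintro t ⟨h1, h2⟩
        exact ⟨h1.trans hlt, by rw [← hup]; exact h2⟩
      · rw [← hup, hux]
        exact h
    have := Set.ncard_lt_ncard hss (Set.toFinite _)
    omega
  · exact heq
  · exfalso
    have hss : {t' : Fin k | t' < x' c ∧ f (Function.update x' c t') = y} ⊂
        {t' : Fin k | t' < x c ∧ f (Function.update x c t') = y} := by
      refine (Set.ssubset_iff_of_subset ?_).2 ⟨x' c, ⟨hgt, ?_⟩, fun hh => lt_irrefl _ hh.1⟩
      · rintro t ⟨h1, h2⟩
        exact ⟨h1.trans hgt, by rw [hup]; exact h2⟩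
      · rw [hux']
        exact h'
    have := Set.ncard_lt_ncard hss (Set.toFinite _)
    omega

/-- The value of the node of the set below the child `i` is found from its rank. -/
theorem self_case {T m n : ℕ} {s : BSel d n} {a : Code T m s} {I I' : Var d k (n + 2) → Fin k} {i c : Fin d}
    (hs : s = .self) (hrel : rel (.self : Sel d n) (sub2 I i c) (sub2 I' i c))
    (hargs : args I = args I') (hf : ∀ x, subI I i (Sum.inl x) = subI I' i (Sum.inl x))
    (hc : ∀ c', c' ≠ c → sub2 I i c' = sub2 I' i c')
    (hr : RankAt m T s a (rank (fun x => subI I i (Sum.inl x)) (args (subI I i)) c (args I i) (args (subI I i) c)))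
    (hr' : RankAt m T s a
      (rank (fun x => subI I' i (Sum.inl x)) (args (subI I' i)) c (args I' i) (args (subI I' i) c))) :
    sub2 I i c = sub2 I' i c := by
  have h1 := rankAt_unique s a hs _ _ hr hr'
  have hfe : (fun x => subI I i (Sum.inl x)) = fun x => subI I' i (Sum.inl x) := funext hf
  rw [← hfe, ← hargs] at h1
  have h2 : args (subI I i) c = args (subI I' i) c := by
    refine rank_eq (f := fun x => subI I i (Sum.inl x)) (y := args I i) ?_ ?_ ?_ h1
    · intro c' hc'
      have := hc c' hc'
      unfold args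
      congr 1
    · rfl
    · rw [hargs]
      exact hf _
  have h3 : valI n (sub2 I i c) = valI n (sub2 I' i c) := h2
  rw [valI_eq, valI_eq, ← hrel.1] at h3
  funext u
  by_cases hu : u = rv n (sub2 I i c)
  · rw [hu]
    exact h3
  · exact hrel.2 u hu

/-- If the indexed nodes of `s` have been observed before the time `M`, the instances are equal. -/
theorem lemR {W : Type} {T m M : ℕ} {o o' : ℕ → W} {p : W} (hM : ∀ j ≤ M, o j = o' j) (hp : o M = p) : {n : ℕ} →
    (s : BSel d n) → (e : Var d k n → W) → Function.Injective e → (I I' : Var d k n → Fin k) → (a : Code T m s) →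
    s ≠ .self → s.WF → rel s.toSel I I' → Bef o p e s I → Bef o' p e s I' → CodeOK o T m e s I a →
    CodeOK o' T m e s I' a → I = I'
  | _, .empty, _, _, _, _, _, _, _, hr, _, _, _, _ => hr
  | _, .self, _, _, _, _, _, hs, _, _, _, _, _, _ => absurd rfl hs
  | n + 2, .node g s, e, he, I, I', a, _, hw, hr, hb, hb', ha, ha' => by
    have hrec : ∀ i c, s i c ≠ .self → sub2 I i c = sub2 I' i c := by
      intro i c hs
      refine lemR hM hp (s i c) (e2 e i c) ?_ (sub2 I i c) (sub2 I' i c) (a.2 i c) hs (hw.2.2 i c) ((hr.2 i).2 c)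
        (hb.2 i c) (hb'.2 i c) (ha.2.2 i c) (ha'.2.2 i c)
      intro u u' huu
      have h1 := Sum.inr_injective (he huu)
      exact (Prod.mk.inj (Sum.inr_injective (Prod.mk.inj h1).2)).2
    have hself : ∀ i c, s i c = .self → sub2 I i c = sub2 I' i c := by
      intro i c hs
      have hg : g = true := by
        cases g
        · exact absurd hs (hw.1 rfl i c)
        · rfl
      obtain ⟨t, ht, ht'⟩ := hb.1 hg
      obtain ⟨t1, ht1, ht1'⟩ := hb'.1 hg
      have htM : t < M := by
        by_contra hcon
        exact ht' M (by omega) hp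
      have ht1M : t1 < M := by
        by_contra hcon
        exact ht1' M (by omega) (by rw [← hM M le_rfl]; exact hp)
      have hargs : args I = args I' := by
        refine idx_eq (E := fun x => e (Sum.inl x)) ?_ (ha.1 hg) (ha'.1 hg) (fun j hj => hM j hj.le)
          ⟨t, htM, ht⟩ ⟨t1, ht1M, ht1⟩
        intro x x' hxx
        exact Sum.inl_injective (he hxx)
      have hrc := (hr.2 i).2 c
      have hrc' : rel (s i c).toSel (sub2 I i c) (sub2 I' i c) := hrc
      rw [hs] at hrc'
      refine self_case hs hrc' hargs (hr.2 i).1 (fun c' hc' => hrec i c' ?_) (ha.2.1 i c) (ha'.2.1 i c)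
      intro hs'
      exact hc' (hw.2.1 i c' c hs' hs)
    funext u
    rcases u with x | ⟨i, u⟩
    · exact hr.1 x
    · rcases u with x | ⟨c, u⟩
      · exact (hr.2 i).1 x
      · have h1 : sub2 I i c = sub2 I' i c := by
          by_cases hs : s i c = .self
          · exact hself i c hs
          · exact hrec i c hs
        exact congrFun h1 u

theorem bkey {W : Type} {T m M : ℕ} {o o' : ℕ → W} (hM : ∀ j ≤ M, o j = o' j) : {n : ℕ} → (s : BSel d n) →
    (e : Var d k n → W) → Function.Injective e → (I I' : Var d k n → Fin k) → (a : Code T m s) → s ≠ .self → s.WF →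
    rel s.toSel I I' → BCond o e s I → BCond o' e s I' → CodeOK o T m e s I a → CodeOK o' T m e s I' a →
    ∀ u, o M = e u → I u = I' u
  | _, .empty, _, _, _, _, _, _, _, hr, _, _, _, _ => fun u _ => by
    have hr' : _ = _ := hr
    rw [hr']
  | _, .self, _, _, _, _, _, hs, _, _, _, _, _, _ => absurd rfl hs
  | n + 2, .node g s, e, he, I, I', a, hns, hw, hr, hc, hc', ha, ha' => by
    rintro (x | ⟨i, x | ⟨c, u⟩⟩) hu
    · exact hr.1 x
    · exact (hr.2 i).1 x
    · by_cases hs : s i c = .self
      · have hrc : rel (s i c).toSel (sub2 I i c) (sub2 I' i c) := (hr.2 i).2 c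
        rw [hs] at hrc
        by_cases hu' : u = rv n (sub2 I i c)
        · have hg : g = true := by
            cases g
            · exact absurd hs (hw.1 rfl i c)
            · rfl
          have h1 := hc.1 i c hs
          have h2 := hc'.1 i c hs
          rw [← hrc.1, ← hu'] at h2
          rw [← hu'] at h1
          have h3 : I = I' := by
            refine lemR hM hu (.node g s) e he I I' a hns hw hr ?_ ?_ ha ha'
            · exact ⟨fun _ => h1, fun i c => bef_trans h1 (s i c) (e2 e i c) (sub2 I i c) (hc.2.1 hg i c)⟩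
            · exact ⟨fun _ => h2, fun i c => bef_trans h2 (s i c) (e2 e i c) (sub2 I' i c) (hc'.2.1 hg i c)⟩
          rw [h3]
        · exact hrc.2 u hu'
      · refine bkey hM (s i c) (e2 e i c) ?_ (sub2 I i c) (sub2 I' i c) (a.2 i c) hs (hw.2.2 i c) ((hr.2 i).2 c)
          (hc.2.2 i c) (hc'.2.2 i c) (ha.2.2 i c) (ha'.2.2 i c) u hu
        intro u u' huu
        have h1 := Sum.inr_injective (he huu)
        exact (Prod.mk.inj (Sum.inr_injective (Prod.mk.inj h1).2)).2

theorem bkey_all {W : Type} {T m : ℕ} {o : ℕ → W} : {n : ℕ} → (s : BSel d n) →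
    (e : Var d k n → W) → Function.Injective e → (I I' : Var d k n → Fin k) → (a : Code T m s) → s ≠ .self → s.WF →
    rel s.toSel I I' → BCond o e s I → BCond o e s I' → CodeOK o T m e s I a → CodeOK o T m e s I' a → I = I'
  | _, .empty, _, _, _, _, _, _, _, hr, _, _, _, _ => hr
  | _, .self, _, _, _, _, _, hs, _, _, _, _, _, _ => absurd rfl hs
  | n + 2, .node g s, e, he, I, I', a, _, hw, hr, hc, hc', ha, ha' => by
    have hrec : ∀ i c, s i c ≠ .self → sub2 I i c = sub2 I' i c := by
      intro i c hs
      refine bkey_all (s i c) (e2 e i c) ?_ (sub2 I i c) (sub2 I' i c) (a.2 i c) hs (hw.2.2 i c) ((hr.2 i).2 c)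
        (hc.2.2 i c) (hc'.2.2 i c) (ha.2.2 i c) (ha'.2.2 i c)
      intro u u' huu
      have h1 := Sum.inr_injective (he huu)
      exact (Prod.mk.inj (Sum.inr_injective (Prod.mk.inj h1).2)).2
    have hself : ∀ i c, s i c = .self → sub2 I i c = sub2 I' i c := by
      intro i c hs
      have hg : g = true := by
        cases g
        · exact absurd hs (hw.1 rfl i c)
        · rfl
      obtain ⟨t, ht, -⟩ := hc.1 i c hs
      obtain ⟨t1, ht1, -⟩ := hc'.1 i c hs
      have hargs : args I = args I' := by
        refine idx_eq (E := fun x => e (Sum.inl x)) (M := t + t1 + 1) ?_ (ha.1 hg) (ha'.1 hg) (fun j _ => rfl)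
          ⟨t, by omega, ht⟩ ⟨t1, by omega, ht1⟩
        intro x x' hxx
        exact Sum.inl_injective (he hxx)
      have hrc' : rel (s i c).toSel (sub2 I i c) (sub2 I' i c) := (hr.2 i).2 c
      rw [hs] at hrc'
      refine self_case hs hrc' hargs (hr.2 i).1 (fun c' hc' => hrec i c' ?_) (ha.2.1 i c) (ha'.2.1 i c)
      intro hs'
      exact hc' (hw.2.1 i c' c hs' hs)
    funext u
    rcases u with x | ⟨i, u⟩
    · exact hr.1 x
    · rcases u with x | ⟨c, u⟩
      · exact (hr.2 i).1 x
      · have h1 : sub2 I i c = sub2 I' i c := by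
          by_cases hs : s i c = .self
          · exact hself i c hs
          · exact hrec i c hs
        exact congrFun h1 u

/-- The decoder for blocks of two levels. -/
theorem B_bound {n N T m : ℕ} (B : BP (Var d k n) k N) (q : Fin N) (s : BSel d n) (hs : s ≠ .self) (hw : s.WF)
    (a : Code T m s) :
    Nat.card {I : Var d k n → Fin k // BCond (obs B I q) Sum.inl s I ∧ CodeOK (obs B I q) T m Sum.inl s I a} *
      k ^ s.size ≤ Nat.card (Var d k n → Fin k) := by
  rw [← toSel_size]
  apply card_of_rel
  rintro I I' ⟨hc, hi⟩ ⟨hc', hi'⟩ hr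
  have hag : ∀ M, (B.step I)^[M] q = (B.step I')^[M] q :=
    runs_agree B q fun M hM u hu => bkey hM s Sum.inl Sum.inl_injective I I' a hs hw hr hc hc' hi hi' u hu
  have ho : obs B I q = obs B I' q := by
    funext t
    unfold obs
    rw [hag t]
  rw [← ho] at hc' hi'
  exact bkey_all s Sum.inl Sum.inl_injective I I' a hs hw hr hc hc' hi hi'

end Pool.Agent.Helper18.IC
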