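import Pool.Agent.Helper18.IC.Num
import Pool.Agent.Helper6.IC.Sum

/-!
# Programs for tree evaluation which inspect few cells: programs of polynomial size
-/

namespace Pool.Agent.Helper18.IC

open Pool.Agent.Helper5.TreeExp Pool.Agent.Helper6.IC

variable {d k : ℕ}

theorem few_of_total {W : Type} {T : ℕ} {o : ℕ → W} : (n : ℕ) → (e : Var d k n → W) →
    {u : Var d k n | ∃ m, o m = e u}.ncard ≤ T → Few o T n e
  | 0, _, _ => trivial
  | n + 1, e, h => by
    refine ⟨?_, fun c => few_of_total n _ ?_⟩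
    · refine le_trans ?_ h
      refine Set.ncard_le_ncard_of_injOn (fun a => (Sum.inl a : (Fin d → Fin k) ⊕ (Fin d × Var d k n)))
        (fun a ha => ha) ?_ (Set.toFinite _)
      intro a _ a' _ haa
      exact Sum.inl_injective haa
    · refine le_trans ?_ h
      refine Set.ncard_le_ncard_of_injOn (fun u => (Sum.inr (c, u) : (Fin d → Fin k) ⊕ (Fin d × Var d k n)))
        (fun a ha => ha) ?_ (Set.toFinite _)
      intro a _ a' _ haa
      exact (Prod.mk.inj (Sum.inr_injective haa)).2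

theorem card_mono {X : Type} [Finite X] {P Q : X → Prop} (h : ∀ x, P x → Q x) :
    Nat.card {x // P x} ≤ Nat.card {x // Q x} :=
  Nat.card_le_card_of_injective (fun x : {x // P x} => (⟨x.1, h x.1 x.2⟩ : {x // Q x}))
    (fun _ _ hxy => Subtype.ext (Subtype.mk.inj hxy))

/-- Programs of polynomial size which inspect at most `M ^ (1 - 1 / d - ε)` of the `M` input variables are wrong on
almost all instances. -/
theorem cor_bound {d : ℕ} (hd : 2 ≤ d) (c : ℕ) {ε η : ℝ} (hε : 0 < ε) (hη : 0 < η) : ∃ n k₀ : ℕ, 1 ≤ n ∧ 2 ≤ k₀ ∧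
    ∀ k ≥ k₀, ∀ (N : ℕ) (B : BP (Var d k n) k N), N ≤ Nat.card (Var d k n) ^ c →
      (Nat.card {I : Var d k n → Fin k // (∃ m, obs B I B.start m = Sum.inr (valI n I)) ∧
        ({u : Var d k n | ∃ m, obs B I B.start m = Sum.inl u}.ncard : ℝ) ≤
          (Nat.card (Var d k n) : ℝ) ^ (1 - 1 / (d : ℝ) - ε)} : ℝ) ≤ η * Nat.card (Var d k n → Fin k) := by
  obtain ⟨n, k₀, hn, hk₀, h⟩ := exists_num hd c hε hη
  refine ⟨n, k₀, hn, hk₀, ?_⟩
  intro k hk N B hN
  have hk1 : 1 ≤ k := by omega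
  set M := Nat.card (Var d k n) with hM
  set T := ⌊(M : ℝ) ^ (1 - 1 / (d : ℝ) - ε)⌋₊ with hT
  have h1 : (Nat.card {I : Var d k n → Fin k // (∃ m, obs B I B.start m = Sum.inr (valI n I)) ∧
        ({u : Var d k n | ∃ m, obs B I B.start m = Sum.inl u}.ncard : ℝ) ≤
          (M : ℝ) ^ (1 - 1 / (d : ℝ) - ε)} : ℝ) ≤ Nat.card {I : Var d k n → Fin k // Good T B I} := by
    exact_mod_cast card_mono (fun I hI => by
      refine ⟨hI.1, few_of_total n Sum.inl ?_⟩
      exact Nat.le_floor hI.2)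
  refine h1.trans ((main_bound hd hk1 hn B).trans ?_)
  refine mul_le_mul_of_nonneg_right ?_ (Nat.cast_nonneg _)
  exact h k hk N T M (card_var_pos n hk1) (card_var_le hd hk1 n) hN
    (Or.inl (Nat.floor_le (Real.rpow_nonneg (Nat.cast_nonneg _) _)))

end Pool.Agent.Helper18.IC
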