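import Pool.Agent.Helper18.IC.Defs

/-!
# Programs for tree evaluation which inspect few cells: the counting
-/

namespace Pool.Agent.Helper18.IC

open Pool.Agent.Helper5.TreeExp

variable {d k : ℕ}

instance finite_var : (n : ℕ) → Finite (Var d k n)
  | 0 => inferInstanceAs (Finite Unit)
  | n + 1 =>
    have := finite_var n
    inferInstanceAs (Finite ((Fin d → Fin k) ⊕ (Fin d × Var d k n)))

/-- Values for the nodes of the set. -/
def Asg (k : ℕ) : {n : ℕ} → Sel d n → Type
  | _, .empty => Unit
  | _, .self => Fin k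
  | _, .node _ s => ∀ c, Asg k (s c)

instance finite_asg : {n : ℕ} → (s : Sel d n) → Finite (Asg k s)
  | _, .empty => inferInstanceAs (Finite Unit)
  | _, .self => inferInstanceAs (Finite (Fin k))
  | _, .node _ s =>
    have := fun c => finite_asg (s c)
    inferInstanceAs (Finite (∀ c, Asg k (s c)))

theorem card_asg : {n : ℕ} → (s : Sel d n) → Nat.card (Asg k s) = k ^ s.size
  | _, .empty => by
    show Nat.card Unit = k ^ 0
    simp
  | _, .self => by
    show Nat.card (Fin k) = k ^ 1
    simp
  | _, .node _ s => by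
    show Nat.card (∀ c, Asg k (s c)) = k ^ (∑ c, (s c).size)
    rw [Nat.card_pi, ← Finset.prod_pow_eq_pow_sum]
    exact Finset.prod_congr rfl fun c _ => card_asg (s c)

instance finite_idxT {T : ℕ} : {n : ℕ} → (s : Sel d n) → Finite (IdxT T s)
  | _, .empty => inferInstanceAs (Finite Unit)
  | _, .self => inferInstanceAs (Finite Unit)
  | _, .node g s =>
    have : ∀ c, Finite (IdxT T (s c)) := fun c => finite_idxT (s c)
    inferInstanceAs (Finite (Fin (if g then T else 1) × ∀ c, IdxT T (s c)))

theorem card_idxT {T : ℕ} : {n : ℕ} → (s : Sel d n) → Nat.card (IdxT T s) = T ^ s.groups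
  | _, .empty => by
    show Nat.card Unit = T ^ 0
    simp
  | _, .self => by
    show Nat.card Unit = T ^ 0
    simp
  | _, .node g s => by
    show Nat.card (Fin (if g then T else 1) × ∀ c, IdxT T (s c)) = T ^ ((if g then 1 else 0) + ∑ c, (s c).groups)
    rw [Nat.card_prod, Nat.card_pi, pow_add, ← Finset.prod_pow_eq_pow_sum]
    have h : ∏ c, Nat.card (IdxT T (s c)) = ∏ c, T ^ (s c).groups :=
      Finset.prod_congr rfl fun c _ => card_idxT (s c)
    rw [h]
    cases g <;> simp

open Classical in
/-- The instance with the given values at the nodes of the set. -/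
noncomputable def upd : {n : ℕ} → (s : Sel d n) → (Var d k n → Fin k) → Asg k s → (Var d k n → Fin k)
  | _, .empty, I, _ => I
  | n, .self, I, a => fun u => if u = rv n I then a else I u
  | _, .node _ s, I, a => fun u =>
      Sum.elim (fun x => I (Sum.inl x)) (fun y => upd (s y.1) (subI I y.1) (a y.1) y.2) u

/-- The values at the nodes of the set. -/
def vals : {n : ℕ} → (s : Sel d n) → (Var d k n → Fin k) → Asg k s
  | _, .empty, _ => ()
  | n, .self, I => I (rv n I)
  | _, .node _ s, I => fun c => vals (s c) (subI I c)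

theorem rv_congr : (n : ℕ) → (I I' : Var d k n → Fin k) → (∀ u, u ≠ rv n I → I u = I' u) → rv n I = rv n I'
  | 0, _, _, _ => rfl
  | n + 1, I, I', h => by
    show (Sum.inl (args I) : (Fin d → Fin k) ⊕ (Fin d × Var d k n)) = Sum.inl (args I')
    congr 1
    funext c
    unfold args
    congr 1
    funext u
    exact h (Sum.inr (c, u)) (fun h' => by exact Sum.inr_ne_inl h')

open Classical in
theorem rel_upd : {n : ℕ} → (s : Sel d n) → (I : Var d k n → Fin k) → (a : Asg k s) → rel s I (upd s I a)
  | _, .empty, _, _ => rfl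
  | n, .self, I, a => by
    have h : ∀ u, u ≠ rv n I → I u = upd .self I a u := by
      intro u hu
      show I u = if u = rv n I then a else I u
      rw [if_neg hu]
    exact ⟨rv_congr n I _ h, h⟩
  | _, .node _ s, I, a => ⟨fun _ => rfl, fun c => rel_upd (s c) (subI I c) (a c)⟩

open Classical in
theorem vals_upd : {n : ℕ} → (s : Sel d n) → (I : Var d k n → Fin k) → (a : Asg k s) → vals s (upd s I a) = a
  | _, .empty, _, _ => rfl
  | n, .self, I, a => by
    have h := (rel_upd .self I a).1
    show upd .self I a (rv n (upd .self I a)) = a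
    rw [← h]
    show (if rv n I = rv n I then a else I (rv n I)) = a
    rw [if_pos rfl]
  | _, .node _ s, I, a => by
    funext c
    exact vals_upd (s c) (subI I c) (a c)

theorem rel_symm : {n : ℕ} → (s : Sel d n) → (I I' : Var d k n → Fin k) → rel s I I' → rel s I' I
  | _, .empty, _, _, h => Eq.symm h
  | _, .self, _, _, h => ⟨h.1.symm, fun u hu => (h.2 u (by rw [h.1]; exact hu)).symm⟩
  | _, .node _ s, I, I', h => ⟨fun x => (h.1 x).symm, fun c => rel_symm (s c) (subI I c) (subI I' c) (h.2 c)⟩

theorem rel_trans : {n : ℕ} → (s : Sel d n) → (I I' I'' : Var d k n → Fin k) → rel s I I' → rel s I' I'' →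
    rel s I I''
  | _, .empty, _, _, _, h, h' => Eq.trans h h'
  | _, .self, _, _, _, h, h' => ⟨h.1.trans h'.1, fun u hu => (h.2 u hu).trans (h'.2 u (by rw [← h.1]; exact hu))⟩
  | _, .node _ s, I, I', I'', h, h' => ⟨fun x => (h.1 x).trans (h'.1 x), fun c =>
      rel_trans (s c) (subI I c) (subI I' c) (subI I'' c) (h.2 c) (h'.2 c)⟩

/-- A set of instances, no two of which differ only at the right variables of the nodes of `s`, has at most the
`k ^ (-|s|)`-th part of all instances. -/
theorem card_of_rel {n : ℕ} (s : Sel d n) (P : (Var d k n → Fin k) → Prop)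
    (h : ∀ I I', P I → P I' → rel s I I' → I = I') :
    Nat.card {I : Var d k n → Fin k // P I} * k ^ s.size ≤ Nat.card (Var d k n → Fin k) := by
  rw [← card_asg (k := k) s, ← Nat.card_prod]
  refine Nat.card_le_card_of_injective (fun x : {I : Var d k n → Fin k // P I} × Asg k s => upd s x.1.1 x.2) ?_
  rintro ⟨⟨I, hI⟩, a⟩ ⟨⟨I', hI'⟩, a'⟩ he
  simp only at he
  have ha : a = a' := by
    rw [← vals_upd s I a, ← vals_upd s I' a', he]
  have h1 := rel_upd s I a
  have h2 := rel_upd s I' a'
  rw [← he] at h2
  have hII := h I I' hI hI' (rel_trans s _ _ _ h1 (rel_symm s _ _ h2))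
  subst hII
  subst ha
  rfl

/-! ### the indices determine the entries -/

theorem idx_eq {W A : Type} [Finite A] {o o' : ℕ → W} {E : A → W} (hE : Function.Injective E) {a a' : A} {i M : ℕ}
    (h : IdxAt o E a i) (h' : IdxAt o' E a' i) (hM : ∀ j < M, o j = o' j) (hm : ∃ m < M, o m = E a)
    (hm' : ∃ m < M, o' m = E a') : a = a' := by
  obtain ⟨t, ht, ht1, ht2⟩ := h
  obtain ⟨t', ht', ht1', ht2'⟩ := h'
  have htM : t < M := by
    obtain ⟨m, hm1, hm2⟩ := hm
    by_contra hc
    exact ht1 m (by omega) hm2
  have htM' : t' < M := by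
    obtain ⟨m, hm1, hm2⟩ := hm'
    by_contra hc
    exact ht1' m (by omega) hm2
  rcases lt_trichotomy t t' with hlt | heq | hgt
  · exfalso
    have hss : {a'' : A | ∃ m < t, o m = E a''} ⊂ {a'' : A | ∃ m < t', o' m = E a''} := by
      refine (Set.ssubset_iff_of_subset ?_).2 ⟨a, ?_, ?_⟩
      · rintro a'' ⟨m, hm1, hm2⟩
        exact ⟨m, by omega, by rw [← hM m (by omega)]; exact hm2⟩
      · exact ⟨t, hlt, by rw [← hM t htM]; exact ht⟩
      · rintro ⟨m, hm1, hm2⟩
        exact ht1 m hm1 hm2
    have := Set.ncard_lt_ncard hss (Set.toFinite _)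
    omega
  · subst heq
    apply hE
    rw [← ht, ← ht', hM t htM]
  · exfalso
    have hss : {a'' : A | ∃ m < t', o' m = E a''} ⊂ {a'' : A | ∃ m < t, o m = E a''} := by
      refine (Set.ssubset_iff_of_subset ?_).2 ⟨a', ?_, ?_⟩
      · rintro a'' ⟨m, hm1, hm2⟩
        exact ⟨m, by omega, by rw [hM m (by omega)]; exact hm2⟩
      · exact ⟨t', hgt, by rw [hM t' htM']; exact ht'⟩
      · rintro ⟨m, hm1, hm2⟩
        exact ht1' m hm1 hm2
    have := Set.ncard_lt_ncard hss (Set.toFinite _)
    omega

theorem key {W : Type} {T M : ℕ} {o o' : ℕ → W} (hM : ∀ j ≤ M, o j = o' j) : {n : ℕ} → (s : Sel d n) →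
    (e : Var d k n → W) → Function.Injective e → (I I' : Var d k n → Fin k) → (i : IdxT T s) → s ≠ .self → s.WF →
    rel s I I' → Cond o e s I → Cond o' e s I' → IdxOK o T e s I i → IdxOK o' T e s I' i →
    ∀ u, o M = e u → I u = I' u
  | _, .empty, _, _, _, _, _, _, _, hr, _, _, _, _ => fun u _ => by
    have hr' : _ = _ := hr
    rw [hr']
  | _, .self, _, _, _, _, _, hs, _, _, _, _, _, _ => absurd rfl hs
  | n + 1, .node g s, e, he, I, I', i, _, hw, hr, hc, hc', hi, hi' => by
    rintro (x | ⟨c, u⟩) hu
    · exact hr.1 x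
    · by_cases hs : s c = .self
      · have hrc := hr.2 c
        rw [hs] at hrc
        by_cases hu' : u = rv n (subI I c)
        · have hg : g = true := by
            cases g
            · exact absurd hs (hw.1 rfl c)
            · rfl
          obtain ⟨m, hm, hm'⟩ := hc.1 c hs
          obtain ⟨m1, hm1, hm1'⟩ := hc'.1 c hs
          rw [← hrc.1, ← hu'] at hm1'
          rw [← hu'] at hm'
          have hmM : m < M := by
            by_contra hcon
            exact hm' M (by omega) hu
          have hm1M : m1 < M := by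
            by_contra hcon
            exact hm1' M (by omega) (by rw [← hM M le_rfl]; exact hu)
          have hargs : args I = args I' := by
            refine idx_eq (E := fun a => e (Sum.inl a)) ?_ (hi.1 hg) (hi'.1 hg) (fun j hj => hM j hj.le)
              ⟨m, hmM, hm⟩ ⟨m1, hm1M, hm1⟩
            intro a a' haa
            exact Sum.inl_injective (he haa)
          have hv : valI n (subI I c) = valI n (subI I' c) := congrFun hargs c
          rw [valI_eq, valI_eq, ← hrc.1, ← hu'] at hv
          exact hv
        · exact hrc.2 u hu'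
      · refine key hM (s c) (fun u => e (Sum.inr (c, u))) ?_ (subI I c) (subI I' c) (i.2 c) hs (hw.2 c) (hr.2 c)
          (hc.2 c) (hc'.2 c) (hi.2 c) (hi'.2 c) u hu
        intro a a' haa
        exact (Prod.mk.inj (Sum.inr_injective (he haa))).2

theorem key_all {W : Type} {T : ℕ} {o : ℕ → W} : {n : ℕ} → (s : Sel d n) →
    (e : Var d k n → W) → Function.Injective e → (I I' : Var d k n → Fin k) → (i : IdxT T s) → s ≠ .self → s.WF →
    rel s I I' → Cond o e s I → Cond o e s I' → IdxOK o T e s I i → IdxOK o T e s I' i → I = I'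
  | _, .empty, _, _, _, _, _, _, _, hr, _, _, _, _ => hr
  | _, .self, _, _, _, _, _, hs, _, _, _, _, _, _ => absurd rfl hs
  | n + 1, .node g s, e, he, I, I', i, _, hw, hr, hc, hc', hi, hi' => by
    funext u
    rcases u with x | ⟨c, u⟩
    · exact hr.1 x
    · by_cases hs : s c = .self
      · have hrc := hr.2 c
        rw [hs] at hrc
        by_cases hu' : u = rv n (subI I c)
        · have hg : g = true := by
            cases g
            · exact absurd hs (hw.1 rfl c)
            · rfl
          obtain ⟨m, hm, -⟩ := hc.1 c hs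
          obtain ⟨m1, hm1, -⟩ := hc'.1 c hs
          have hargs : args I = args I' := by
            refine idx_eq (E := fun a => e (Sum.inl a)) (M := m + m1 + 1) ?_ (hi.1 hg) (hi'.1 hg) (fun j _ => rfl)
              ⟨m, by omega, hm⟩ ⟨m1, by omega, hm1⟩
            intro a a' haa
            exact Sum.inl_injective (he haa)
          have hv : valI n (subI I c) = valI n (subI I' c) := congrFun hargs c
          rw [valI_eq, valI_eq, ← hrc.1, ← hu'] at hv
          exact hv
        · exact hrc.2 u hu'
      · have h1 := key_all (s c) (fun u => e (Sum.inr (c, u))) (by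
          intro a a' haa
          exact (Prod.mk.inj (Sum.inr_injective (he haa))).2) (subI I c) (subI I' c) (i.2 c) hs (hw.2 c) (hr.2 c)
          (hc.2 c) (hc'.2 c) (hi.2 c) (hi'.2 c)
        exact congrFun h1 u

/-! ### runs -/

theorem step_congr {V : Type} {N : ℕ} (B : BP V k N) {I I' : V → Fin k} {q : Fin N}
    (h : ∀ u, see B q = Sum.inl u → I u = I' u) : B.step I q = B.step I' q := by
  unfold BP.step
  unfold see at h
  rcases hq : B.act q with t | x
  · rw [hq] at h
    simp only [Sum.elim_inl]
    rw [h t.1 rfl]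
  · rfl

theorem stay {V : Type} {N : ℕ} (B : BP V k N) {I : V → Fin k} {q : Fin N} {x : Fin k}
    (h : see B q = Sum.inr x) : B.step I q = q := by
  unfold BP.step
  unfold see at h
  rcases hq : B.act q with t | y
  · rw [hq] at h
    exact absurd h (by simp)
  · rfl

theorem stay_iter {V : Type} {N : ℕ} (B : BP V k N) {I : V → Fin k} {q : Fin N} {x : Fin k}
    (h : see B q = Sum.inr x) (m : ℕ) : (B.step I)^[m] q = q := by
  induction m with
  | zero => rfl
  | succ m ih => rw [Function.iterate_succ_apply', ih, stay B h]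

theorem obs_stay {V : Type} {N : ℕ} (B : BP V k N) {I : V → Fin k} {q : Fin N} {x : Fin k} {m : ℕ}
    (h : obs B I q m = Sum.inr x) {j : ℕ} (hj : m ≤ j) : obs B I q j = Sum.inr x := by
  obtain ⟨t, rfl⟩ := Nat.exists_eq_add_of_le hj
  unfold obs at h ⊢
  rw [Nat.add_comm, Function.iterate_add_apply, stay_iter B h]
  exact h

theorem runs_agree {V : Type} {N : ℕ} (B : BP V k N) {I I' : V → Fin k} (q : Fin N)
    (h : ∀ M, (∀ j ≤ M, obs B I q j = obs B I' q j) → ∀ u, obs B I q M = Sum.inl u → I u = I' u) (M : ℕ) :
    (B.step I)^[M] q = (B.step I')^[M] q := by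
  induction M using Nat.strong_induction_on with
  | _ M ih =>
    rcases M with _ | M
    · rfl
    · rw [Function.iterate_succ_apply', Function.iterate_succ_apply', ← ih M (Nat.lt_succ_self M)]
      apply step_congr
      intro u hu
      refine h M (fun j hj => ?_) u hu
      unfold obs
      rw [ih j (by omega)]

/-- The decoder. -/
theorem G_bound {n N T : ℕ} (B : BP (Var d k n) k N) (q : Fin N) (s : Sel d n) (hs : s ≠ .self) (hw : s.WF)
    (i : IdxT T s) :
    Nat.card {I : Var d k n → Fin k // Cond (obs B I q) Sum.inl s I ∧ IdxOK (obs B I q) T Sum.inl s I i} *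
      k ^ s.size ≤ Nat.card (Var d k n → Fin k) := by
  apply card_of_rel
  rintro I I' ⟨hc, hi⟩ ⟨hc', hi'⟩ hr
  have hag : ∀ M, (B.step I)^[M] q = (B.step I')^[M] q :=
    runs_agree B q fun M hM u hu => key hM s Sum.inl Sum.inl_injective I I' i hs hw hr hc hc' hi hi' u hu
  have ho : obs B I q = obs B I' q := by
    funext m
    unfold obs
    rw [hag m]
  rw [← ho] at hc' hi'
  exact key_all s Sum.inl Sum.inl_injective I I' i hs hw hr hc hc' hi hi'

/-- The output is found without reading the right variable of the root. -/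
theorem root_bound {n N : ℕ} (B : BP (Var d k n) k N) (q : Fin N) :
    Nat.card {I : Var d k n → Fin k // Held (obs B I q) (Sum.inr (valI n I)) (Sum.inl (rv n I))} * k ≤
      Nat.card (Var d k n → Fin k) := by
  have h0 := card_of_rel (k := k) (Sel.self : Sel d n)
    (fun I => Held (obs B I q) (Sum.inr (valI n I)) (Sum.inl (rv n I))) ?_
  · have hsz : (Sel.self : Sel d n).size = 1 := rfl
    rw [hsz, pow_one] at h0
    exact h0
  · rintro I I' ⟨m, hm, hm1⟩ ⟨m', hm', hm1'⟩ hr
    have hag : ∀ M, (B.step I)^[M] q = (B.step I')^[M] q := by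
      refine runs_agree B q fun M hM u hu => ?_
      by_cases hu' : u = rv n I
      · exfalso
        rw [hu'] at hu
        have hmM : m ≤ M := by
          by_contra hcon
          exact hm1 M (by omega) hu
        have := obs_stay B hm hmM
        rw [this] at hu
        exact absurd hu (by simp)
      · exact hr.2 u hu'
    have ho : obs B I q = obs B I' q := by
      funext m
      unfold obs
      rw [hag m]
    rw [← ho] at hm'
    have h1 := obs_stay B hm (Nat.le_add_right m m')
    have h2 := obs_stay B hm' (Nat.le_add_left m' m)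
    rw [h1] at h2
    have hv : valI n I = valI n I' := Sum.inr_injective h2
    funext u
    by_cases hu' : u = rv n I
    · rw [hu', ← valI_eq n I, hv, valI_eq n I', hr.1]
    · exact hr.2 u hu'

end Pool.Agent.Helper18.IC
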