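import Pool.Agent.Helper5.TreeExp.Defs

/-!
# Programs for tree evaluation which inspect few cells: definitions

An instance is a function `I : Var d k n → Fin k` (a value for each input variable).
-/

namespace Pool.Agent.Helper18.IC

open Pool.Agent.Helper5.TreeExp

variable {d k : ℕ}

/-- The instance at the subtree of the child `c` of the root. -/
def subI {n : ℕ} (I : Var d k (n + 1) → Fin k) (c : Fin d) : Var d k n → Fin k :=
  fun u => I (Sum.inr (c, u))

/-- The value of the root. -/
def valI : (n : ℕ) → (Var d k n → Fin k) → Fin k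
  | 0, I => I ()
  | n + 1, I => I (Sum.inl (fun c => valI n (subI I c)))

/-- The values of the children of the root. -/
def args {n : ℕ} (I : Var d k (n + 1) → Fin k) : Fin d → Fin k := fun c => valI n (subI I c)

/-- The right variable of the root: the leaf variable, or the entry of the table of the root at the values of the
children. -/
def rv : (n : ℕ) → (Var d k n → Fin k) → Var d k n
  | 0, _ => ()
  | _ + 1, I => Sum.inl (args I)

theorem valI_eq : (n : ℕ) → (I : Var d k n → Fin k) → valI n I = I (rv n I)
  | 0, _ => rfl
  | _ + 1, _ => rfl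

/-- What is observed in a state: the queried variable, or the output. -/
def see {V : Type} {N : ℕ} (B : BP V k N) (q : Fin N) : V ⊕ Fin k :=
  (B.act q).elim (fun t => Sum.inl t.1) Sum.inr

/-- What is observed in the `m`-th state of the run from `q`. -/
def obs {V : Type} {N : ℕ} (B : BP V k N) (I : V → Fin k) (q : Fin N) (m : ℕ) : V ⊕ Fin k :=
  see B ((B.step I)^[m] q)

/-- `p` is observed, and before it `v` is not observed. -/
def Held {W : Type} (o : ℕ → W) (p v : W) : Prop := ∃ m, o m = p ∧ ∀ j ≤ m, o j ≠ v

/-- There is a path from the root of the subtree to a leaf without held nodes; `p` is the right observation of the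
parent. -/
def Open {W : Type} (o : ℕ → W) : (n : ℕ) → (Var d k n → W) → (Var d k n → Fin k) → W → Prop
  | 0, e, I, p => ¬ Held o p (e (rv 0 I))
  | n + 1, e, I, p => ¬ Held o p (e (rv (n + 1) I)) ∧
      ∃ c, Open o n (fun u => e (Sum.inr (c, u))) (subI I c) (e (rv (n + 1) I))

/-- A set of nodes of the tree, no one below another: `self` is the set of the root only; `node g s` is the union of
the sets `s c` in the subtrees of the children; `g` tells if there is an index for the root. -/
inductive Sel (d : ℕ) : ℕ → Type
  | empty {n : ℕ} : Sel d n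
  | self {n : ℕ} : Sel d n
  | node {n : ℕ} (g : Bool) (s : Fin d → Sel d n) : Sel d (n + 1)

/-- The number of nodes of the set. -/
def Sel.size : {n : ℕ} → Sel d n → ℕ
  | _, .empty => 0
  | _, .self => 1
  | _, .node _ s => ∑ c, (s c).size

/-- The number of indices. -/
def Sel.groups : {n : ℕ} → Sel d n → ℕ
  | _, .empty => 0
  | _, .self => 0
  | _, .node g s => (if g then 1 else 0) + ∑ c, (s c).groups

/-- Where a child of a node is in the set, there is an index for the node. -/
def Sel.WF : {n : ℕ} → Sel d n → Prop
  | _, .empty => True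
  | _, .self => True
  | _, .node g s => (g = false → ∀ c, s c ≠ .self) ∧ ∀ c, (s c).WF

/-- The instances differ only at the right variables of the nodes of the set. -/
def rel : {n : ℕ} → Sel d n → (Var d k n → Fin k) → (Var d k n → Fin k) → Prop
  | _, .empty, I, I' => I = I'
  | n, .self, I, I' => rv n I = rv n I' ∧ ∀ u, u ≠ rv n I → I u = I' u
  | _, .node _ s, I, I' => (∀ x, I (Sum.inl x) = I' (Sum.inl x)) ∧ ∀ c, rel (s c) (subI I c) (subI I' c)

/-- The nodes of the set are held. -/
def Cond {W : Type} (o : ℕ → W) : {n : ℕ} → (Var d k n → W) → Sel d n → (Var d k n → Fin k) → Prop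
  | _, _, .empty, _ => True
  | _, _, .self, _ => True
  | n + 1, e, .node _ s, I =>
      (∀ c, s c = .self → Held o (e (rv (n + 1) I)) (e (Sum.inr (c, rv n (subI I c))))) ∧
      ∀ c, Cond o (fun u => e (Sum.inr (c, u))) (s c) (subI I c)

/-- The first time when `E a` is observed, exactly `i` of the `E a'` have been observed before. -/
def IdxAt {W A : Type} (o : ℕ → W) (E : A → W) (a : A) (i : ℕ) : Prop :=
  ∃ M, o M = E a ∧ (∀ m < M, o m ≠ E a) ∧ {a' : A | ∃ m < M, o m = E a'}.ncard = i

/-- The indices, numbers smaller than `T`. -/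
def IdxT (T : ℕ) : {n : ℕ} → Sel d n → Type
  | _, .empty => Unit
  | _, .self => Unit
  | _, .node g s => Fin (if g then T else 1) × ∀ c, IdxT T (s c)

/-- The indices are the indices of the run. -/
def IdxOK {W : Type} (o : ℕ → W) (T : ℕ) : {n : ℕ} → (Var d k n → W) → (s : Sel d n) → (Var d k n → Fin k) →
    IdxT T s → Prop
  | _, _, .empty, _, _ => True
  | _, _, .self, _, _ => True
  | _ + 1, e, .node g s, I, i =>
      (g = true → IdxAt o (fun a => e (Sum.inl a)) (args I) i.1) ∧
      ∀ c, IdxOK o T (fun u => e (Sum.inr (c, u))) (s c) (subI I c) (i.2 c)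

end Pool.Agent.Helper18.IC
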