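import Pool.Agent.Helper6.IC.BDefs

/-!
# Programs for tree evaluation which inspect few cells: the lines of random tables
-/

namespace Pool.Agent.Helper18.IC

open Pool.Agent.Helper5.TreeExp Pool.Agent.Helper6.IC

variable {d k : ℕ}

theorem fix_bound {V : Type} [Finite V] (S : Finset (Fin k)) {g : Fin k → V} (hg : Function.Injective g) (y : Fin k) :
    Nat.card {J : V → Fin k // ∀ t ∈ S, J (g t) = y} * k ^ S.card ≤ Nat.card (V → Fin k) := by
  classical
  have h1 : k ^ S.card = Nat.card (S → Fin k) := by simp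
  rw [h1, ← Nat.card_prod]
  have hgS : Function.Injective (fun t : S => g t.1) := fun a b hab => Subtype.ext (hg hab)
  refine Nat.card_le_card_of_injective (fun x : {J : V → Fin k // ∀ t ∈ S, J (g t) = y} × (S → Fin k) =>
    Function.extend (fun t : S => g t.1) x.2 x.1.1) ?_
  rintro ⟨⟨J, hJ⟩, a⟩ ⟨⟨J', hJ'⟩, a'⟩ he
  simp only at he
  have ha : a = a' := by
    funext t
    have h2 := congrFun he (g t.1)
    have h3 := hgS.extend_apply a J t
    have h4 := hgS.extend_apply a' J' t
    rw [h3, h4] at h2
    exact h2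
  have hJJ : J = J' := by
    funext v
    by_cases hv : ∃ t : S, g t.1 = v
    · obtain ⟨t, rfl⟩ := hv
      rw [hJ t.1 t.2, hJ' t.1 t.2]
    · have h2 := congrFun he v
      rw [Function.extend_apply' _ _ _ hv, Function.extend_apply' _ _ _ hv] at h2
      exact h2
  subst ha
  subst hJJ
  rfl

theorem line_bound {V : Type} [Finite V] (hk : 1 ≤ k) (r : ℕ) {g : Fin k → V} (hg : Function.Injective g) (y : Fin k) :
    Nat.card {J : V → Fin k // r ≤ {t : Fin k | J (g t) = y}.ncard} * r.factorial ≤ Nat.card (V → Fin k) := by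
  classical
  have hcov := cover (fun (S : {S : Finset (Fin k) // S.card = r}) (J : V → Fin k) => ∀ t ∈ S.1, J (g t) = y)
    (fun J => r ≤ {t : Fin k | J (g t) = y}.ncard) (by
    intro J hJ
    have h1 : r ≤ (Set.toFinite {t : Fin k | J (g t) = y}).toFinset.card := by
      rw [← Set.ncard_eq_toFinset_card]
      exact hJ
    obtain ⟨S, hS, hSc⟩ := Finset.exists_subset_card_eq h1
    refine ⟨⟨S, hSc⟩, fun t ht => ?_⟩
    have h2 := hS ht
    rw [Set.Finite.mem_toFinset] at h2
    exact h2)
  have hkr : 0 < k ^ r := Nat.pow_pos (by omega)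
  have h2 : Nat.card {J : V → Fin k // r ≤ {t : Fin k | J (g t) = y}.ncard} * k ^ r ≤
      k.choose r * Nat.card (V → Fin k) := by
    calc _ ≤ (∑ S : {S : Finset (Fin k) // S.card = r}, Nat.card {J : V → Fin k // ∀ t ∈ S.1, J (g t) = y}) * k ^ r :=
          Nat.mul_le_mul_right _ hcov
      _ = ∑ S : {S : Finset (Fin k) // S.card = r}, Nat.card {J : V → Fin k // ∀ t ∈ S.1, J (g t) = y} * k ^ r :=
          Finset.sum_mul _ _ _
      _ ≤ ∑ _S : {S : Finset (Fin k) // S.card = r}, Nat.card (V → Fin k) := by
          refine Finset.sum_le_sum fun S _ => ?_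
          have h3 := fix_bound (V := V) S.1 hg y
          rw [S.2] at h3
          exact h3
      _ = k.choose r * Nat.card (V → Fin k) := by
          rw [Finset.sum_const, Finset.card_univ, Fintype.card_finset_len, Fintype.card_fin, smul_eq_mul]
  have h3 : k.choose r * r.factorial ≤ k ^ r := by
    rw [Nat.mul_comm, ← Nat.descFactorial_eq_factorial_mul_choose]
    exact Nat.descFactorial_le_pow k r
  refine Nat.le_of_mul_le_mul_right ?_ hkr
  calc Nat.card {J : V → Fin k // r ≤ {t : Fin k | J (g t) = y}.ncard} * r.factorial * k ^ r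
      = Nat.card {J : V → Fin k // r ≤ {t : Fin k | J (g t) = y}.ncard} * k ^ r * r.factorial := by ring
    _ ≤ k.choose r * Nat.card (V → Fin k) * r.factorial := Nat.mul_le_mul_right _ h2
    _ = k.choose r * r.factorial * Nat.card (V → Fin k) := by ring
    _ ≤ k ^ r * Nat.card (V → Fin k) := Nat.mul_le_mul_right _ h3
    _ = Nat.card (V → Fin k) * k ^ r := Nat.mul_comm _ _

theorem lines_bound_aux {V : Type} [Finite V] (hd : 2 ≤ d) (hk : 1 ≤ k) (m : ℕ) : (n : ℕ) → (e : Var d k n → V) →
    Function.Injective e →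
    Nat.card {J : V → Fin k // ¬ Lines m n (fun u => J (e u))} * (m + 1).factorial +
      d * k ^ (d + 1) * Nat.card (V → Fin k) ≤ d ^ (n + 1) * k ^ (d + 1) * Nat.card (V → Fin k)
  | 0, e, _ => by
    have h1 : Nat.card {J : V → Fin k // ¬ Lines m 0 (fun u => J (e u))} = 0 := by
      rw [Nat.card_eq_zero]
      left
      exact ⟨fun x => x.2 trivial⟩
    rw [h1, zero_mul, zero_add, zero_add, pow_one]
  | n + 1, e, he => by
    classical
    let P : ((Fin d → Fin k) × Fin d × Fin k) ⊕ Fin d → (V → Fin k) → Prop := fun w J => match w with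
      | Sum.inl w => m + 1 ≤ {t : Fin k | J (e (Sum.inl (Function.update w.1 w.2.1 t))) = w.2.2}.ncard
      | Sum.inr c => ¬ Lines m n (fun u => J (e (Sum.inr (c, u))))
    have hcov := cover P (fun J => ¬ Lines m (n + 1) (fun u => J (e u))) (by
      intro J hJ
      by_contra hc
      apply hJ
      refine ⟨fun x c y => ?_, fun c => ?_⟩
      · by_contra hlt
        exact hc ⟨Sum.inl (x, c, y), Nat.lt_of_not_le hlt⟩
      · by_contra hlt
        exact hc ⟨Sum.inr c, hlt⟩)
    rw [Fintype.sum_sum_type] at hcov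
    set X := Nat.card (V → Fin k) with hX
    set F := (m + 1).factorial with hF
    have h1 : (∑ w : (Fin d → Fin k) × Fin d × Fin k, Nat.card {J // P (Sum.inl w) J}) * F ≤ d * k ^ (d + 1) * X := by
      rw [Finset.sum_mul]
      calc ∑ w : (Fin d → Fin k) × Fin d × Fin k, Nat.card {J // P (Sum.inl w) J} * F
          ≤ ∑ _w : (Fin d → Fin k) × Fin d × Fin k, X := by
            refine Finset.sum_le_sum fun w _ => ?_
            refine line_bound hk (m + 1) (g := fun t => e (Sum.inl (Function.update w.1 w.2.1 t))) ?_ w.2.2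
            intro t t' htt
            exact Function.update_injective w.1 w.2.1 (Sum.inl_injective (he htt))
        _ = d * k ^ (d + 1) * X := by
            rw [Finset.sum_const, Finset.card_univ]
            simp only [Fintype.card_prod, Fintype.card_fun, Fintype.card_fin, smul_eq_mul]
            ring
    have h2 : (∑ c : Fin d, Nat.card {J // P (Sum.inr c) J}) * F + d * (d * k ^ (d + 1) * X) ≤
        d * (d ^ (n + 1) * k ^ (d + 1) * X) := by
      rw [Finset.sum_mul]
      have h3 : ∀ c : Fin d, Nat.card {J // P (Sum.inr c) J} * F + d * k ^ (d + 1) * X ≤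
          d ^ (n + 1) * k ^ (d + 1) * X := by
        intro c
        refine lines_bound_aux hd hk m n (fun u => e (Sum.inr (c, u))) ?_
        intro u u' huu
        exact (Prod.mk.inj (Sum.inr_injective (he huu))).2
      calc ∑ c : Fin d, Nat.card {J // P (Sum.inr c) J} * F + d * (d * k ^ (d + 1) * X)
          = ∑ c : Fin d, (Nat.card {J // P (Sum.inr c) J} * F + d * k ^ (d + 1) * X) := by
            rw [Finset.sum_add_distrib, Finset.sum_const, Finset.card_univ, Fintype.card_fin, smul_eq_mul]
        _ ≤ ∑ _c : Fin d, d ^ (n + 1) * k ^ (d + 1) * X := Finset.sum_le_sum fun c _ => h3 c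
        _ = d * (d ^ (n + 1) * k ^ (d + 1) * X) := by
            rw [Finset.sum_const, Finset.card_univ, Fintype.card_fin, smul_eq_mul]
    set K := k ^ (d + 1) * X with hK
    have e1 : d * k ^ (d + 1) * X = d * K := by rw [hK]; ring
    have e2 : d ^ (n + 1) * k ^ (d + 1) * X = d ^ (n + 1) * K := by rw [hK]; ring
    have e3 : d ^ (n + 1 + 1) * k ^ (d + 1) * X = d * (d ^ (n + 1) * K) := by rw [hK]; ring
    rw [e1] at h1
    rw [e1, e2] at h2
    rw [e1, e3]
    have h4 : 2 * (d * K) ≤ d * (d * K) := Nat.mul_le_mul_right _ hd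
    have h5 := Nat.mul_le_mul_right F hcov
    rw [add_mul] at h5
    omega

/-- The tables of almost all instances take each value on each line at most `m` times. -/
theorem lines_bound {n : ℕ} (hd : 2 ≤ d) (hk : 1 ≤ k) (m : ℕ) :
    Nat.card {I : Var d k n → Fin k // ¬ Lines m n I} * (m + 1).factorial ≤
      d ^ (n + 1) * k ^ (d + 1) * Nat.card (Var d k n → Fin k) := by
  have h := lines_bound_aux (V := Var d k n) hd hk m n (fun u => u) (fun _ _ h => h)
  exact (Nat.le_add_right _ _).trans h

end Pool.Agent.Helper18.IC
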