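import Pool.Agent.Helper5.TreeExp.Defs

/-!
# Programs for tree evaluation: queried variables, programs with a pushdown store
-/

namespace Pool.Agent.Helper18.IC

open Pool.Agent.Helper5.TreeExp

variable {d k : ℕ}

/-- The node of a variable (the path from the root). -/
def nodeOf : (n : ℕ) → Var d k n → List (Fin d)
  | 0, _ => []
  | n + 1, u => Sum.elim (fun _ => []) (fun y => y.1 :: nodeOf n y.2) u

/-- In the computation of `B` on the input `I` the variable `v` is queried. -/
def Asked {V : Type} {N : ℕ} (B : BP V k N) (I : V → Fin k) (v : V) : Prop :=
  ∃ (m : ℕ) (next : Fin k → Fin N), B.act ((B.step I)^[m] B.start) = Sum.inl (v, next)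

/-- The instructions of a branching program with a pushdown store: query a variable, push a symbol, pop a symbol, or
give the output. -/
inductive PAct (V : Type) (k : ℕ) (S G : Type)
  | ask (v : V) (next : Fin k → S) : PAct V k S G
  | push (g : G) (next : S) : PAct V k S G
  | pop (next : G → S) : PAct V k S G
  | out (a : Fin k) : PAct V k S G

/-- A deterministic `k`-way branching program with a pushdown store: `S` states, `G` stack symbols. -/
structure PBP (V : Type) (k : ℕ) (S G : Type) where
  start : S
  act : S → PAct V k S G

/-- One step on the input `I` (to pop from the empty stack is impossible: the program stays; final states do not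
move). -/
def PBP.step {V S G : Type} (P : PBP V k S G) (I : V → Fin k) (c : S × List G) : S × List G :=
  match P.act c.1 with
  | .ask v next => (next (I v), c.2)
  | .push g s => (s, g :: c.2)
  | .pop next => match c.2 with
    | [] => c
    | g :: st => (next g, st)
  | .out _ => c

/-- The configuration after `m` steps. -/
def PBP.conf {V S G : Type} (P : PBP V k S G) (I : V → Fin k) (m : ℕ) : S × List G := (P.step I)^[m] (P.start, [])

/-- The output on the input `I` is `a`. -/
def PBP.Outputs {V S G : Type} (P : PBP V k S G) (I : V → Fin k) (a : Fin k) : Prop :=
  ∃ m, P.act (P.conf I m).1 = .out a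

/-- On the input `I` the variable `v` is queried. -/
def PBP.Asks {V S G : Type} (P : PBP V k S G) (I : V → Fin k) (v : V) : Prop :=
  ∃ m next, P.act (P.conf I m).1 = .ask v next

end Pool.Agent.Helper18.IC
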