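import Pool.Agent.Helper18.IC.Num

/-!
# Programs for tree evaluation which inspect few cells: arithmetic for all large arities and heights
-/

namespace Pool.Agent.Helper18.IC

/-- The bound is at most `2 / k` for all `d, n ≥ j₀` and all `k ≥ d ^ n`. -/
theorem num_all (c : ℕ) {ε : ℝ} (hε : 0 < ε) : ∃ j₀ : ℕ, ∀ d n k N T M : ℕ, j₀ ≤ d → j₀ ≤ n → d ^ n ≤ k → 1 ≤ M →
    M ≤ d ^ (n + 1) * k ^ d → N ≤ M ^ c → (T : ℝ) ≤ (M : ℝ) ^ (1 - ε) →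
      (d : ℝ) ^ n * T / (k : ℝ) ^ d + N * (d : ℝ) ^ ((n + 1) ^ 2) * (T : ℝ) ^ n / (k : ℝ) ^ ((d - 1) * n + 1) ≤
        2 / (k : ℝ) := by
  set ε' : ℝ := min ε 1 with hε'
  have hε0 : 0 < ε' := lt_min hε one_pos
  have hε1 : ε' ≤ ε := min_le_left _ _
  have hε2 : ε' ≤ 1 := min_le_right _ _
  obtain ⟨j₁, hj₁⟩ := exists_nat_ge (8 / ε')
  obtain ⟨j₂, hj₂⟩ := exists_nat_ge (2 * ((c : ℝ) + 1) / ε')
  refine ⟨j₁ + j₂ + 2, ?_⟩
  intro d n k N T M hd hn hk hM1 hM hN hT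
  have hd2 : 2 ≤ d := by omega
  have hn1 : 1 ≤ n := by omega
  have hk1 : 1 ≤ k := (Nat.one_le_pow _ _ (by omega)).trans hk
  have hkR : (1 : ℝ) ≤ k := by exact_mod_cast hk1
  have hk0 : (0 : ℝ) < k := by linarith
  have hMR : (1 : ℝ) ≤ M := by exact_mod_cast hM1
  have hdn : (d : ℝ) ^ n ≤ k := by exact_mod_cast hk
  have hdε : 8 ≤ ε' * (d + 2) := by
    have h1 : 8 / ε' * ε' = 8 := div_mul_cancel₀ _ hε0.ne'
    have h2 : (j₁ : ℝ) ≤ d := by exact_mod_cast (by omega : j₁ ≤ d)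
    nlinarith
  have hnε : 2 * ((c : ℝ) + 1) ≤ ε' * n := by
    have h1 : 2 * ((c : ℝ) + 1) / ε' * ε' = 2 * ((c : ℝ) + 1) := div_mul_cancel₀ _ hε0.ne'
    have h2 : (j₂ : ℝ) ≤ n := by exact_mod_cast (by omega : j₂ ≤ n)
    nlinarith
  -- `M ≤ k ^ (d + 2)`
  have hM2 : M ≤ k ^ (d + 2) := by
    calc M ≤ d ^ (n + 1) * k ^ d := hM
      _ ≤ d ^ (n * 2) * k ^ d := Nat.mul_le_mul_right _ (Nat.pow_le_pow_right (by omega) (by omega))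
      _ = (d ^ n) ^ 2 * k ^ d := by rw [pow_mul]
      _ ≤ k ^ 2 * k ^ d := Nat.mul_le_mul_right _ (Nat.pow_le_pow_left hk 2)
      _ = k ^ (d + 2) := by ring
  have hM3 : (M : ℝ) ≤ (k : ℝ) ^ ((d : ℝ) + 2) := by
    have h1 : (k : ℝ) ^ ((d : ℝ) + 2) = ((k ^ (d + 2) : ℕ) : ℝ) := by
      push_cast
      rw [← Real.rpow_natCast (k : ℝ) (d + 2)]
      push_cast
      rfl
    rw [h1]
    exact_mod_cast hM2
  have hT2 : (T : ℝ) ≤ (k : ℝ) ^ (((d : ℝ) + 2) * (1 - ε')) := by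
    calc (T : ℝ) ≤ (M : ℝ) ^ (1 - ε) := hT
      _ ≤ (M : ℝ) ^ (1 - ε') := Real.rpow_le_rpow_of_exponent_le hMR (by linarith)
      _ ≤ ((k : ℝ) ^ ((d : ℝ) + 2)) ^ (1 - ε') := Real.rpow_le_rpow (by linarith) hM3 (by linarith)
      _ = _ := (Real.rpow_mul hk0.le _ _).symm
  have hN2 : (N : ℝ) ≤ (k : ℝ) ^ (((d : ℝ) + 2) * c) := by
    have h1 : (N : ℝ) ≤ (M : ℝ) ^ c := by exact_mod_cast hN
    calc (N : ℝ) ≤ (M : ℝ) ^ c := h1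
      _ ≤ ((k : ℝ) ^ ((d : ℝ) + 2)) ^ c := by gcongr
      _ = _ := by rw [← Real.rpow_natCast, ← Real.rpow_mul hk0.le]
  have hd3 : (d : ℝ) ^ ((n + 1) ^ 2) ≤ (k : ℝ) ^ ((n : ℝ) + 3) := by
    have h1 : d ^ ((n + 1) ^ 2) ≤ k ^ (n + 3) := by
      calc d ^ ((n + 1) ^ 2) ≤ d ^ (n * (n + 3)) := Nat.pow_le_pow_right (by omega) (by nlinarith)
        _ = (d ^ n) ^ (n + 3) := by rw [pow_mul]
        _ ≤ k ^ (n + 3) := Nat.pow_le_pow_left hk _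
    have h2 : (k : ℝ) ^ ((n : ℝ) + 3) = ((k ^ (n + 3) : ℕ) : ℝ) := by
      push_cast
      rw [← Real.rpow_natCast (k : ℝ) (n + 3)]
      push_cast
      rfl
    rw [h2]
    exact_mod_cast h1
  have hT3 : (T : ℝ) ^ n ≤ (k : ℝ) ^ (((d : ℝ) + 2) * (1 - ε') * n) := by
    calc (T : ℝ) ^ n ≤ ((k : ℝ) ^ (((d : ℝ) + 2) * (1 - ε'))) ^ n := by gcongr
      _ = _ := by rw [← Real.rpow_natCast, ← Real.rpow_mul hk0.le]
  have h1 : (d : ℝ) ^ n * T / (k : ℝ) ^ d ≤ 1 / k := by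
    rw [div_le_div_iff₀ (by positivity) hk0]
    calc (d : ℝ) ^ n * T * k ≤ k * (k : ℝ) ^ (((d : ℝ) + 2) * (1 - ε')) * k := by gcongr
      _ = (k : ℝ) ^ (1 + ((d : ℝ) + 2) * (1 - ε') + 1) := by
          rw [Real.rpow_add hk0, Real.rpow_add hk0, Real.rpow_one]
      _ ≤ (k : ℝ) ^ (d : ℝ) := Real.rpow_le_rpow_of_exponent_le hkR (by nlinarith)
      _ = 1 * (k : ℝ) ^ d := by rw [Real.rpow_natCast, one_mul]
  have h2 : N * (d : ℝ) ^ ((n + 1) ^ 2) * (T : ℝ) ^ n / (k : ℝ) ^ ((d - 1) * n + 1) ≤ 1 / k := by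
    rw [div_le_div_iff₀ (by positivity) hk0]
    have hk3 : (k : ℝ) ^ ((d - 1) * n + 1) = (k : ℝ) ^ (((d : ℝ) - 1) * n + 1) := by
      rw [← Real.rpow_natCast]
      congr 1
      push_cast [Nat.cast_sub (by omega : 1 ≤ d)]
      ring
    calc N * (d : ℝ) ^ ((n + 1) ^ 2) * (T : ℝ) ^ n * k
        ≤ (k : ℝ) ^ (((d : ℝ) + 2) * c) * (k : ℝ) ^ ((n : ℝ) + 3) * (k : ℝ) ^ (((d : ℝ) + 2) * (1 - ε') * n) * k := by
          gcongr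
      _ = (k : ℝ) ^ (((d : ℝ) + 2) * c + ((n : ℝ) + 3) + ((d : ℝ) + 2) * (1 - ε') * n + 1) := by
          rw [Real.rpow_add hk0 (((d : ℝ) + 2) * c + ((n : ℝ) + 3) + ((d : ℝ) + 2) * (1 - ε') * n) 1,
            Real.rpow_add hk0 (((d : ℝ) + 2) * c + ((n : ℝ) + 3)) (((d : ℝ) + 2) * (1 - ε') * n),
            Real.rpow_add hk0 (((d : ℝ) + 2) * c) ((n : ℝ) + 3), Real.rpow_one]
      _ ≤ (k : ℝ) ^ (((d : ℝ) - 1) * n + 1) := by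
          apply Real.rpow_le_rpow_of_exponent_le hkR
          have hnR : (0 : ℝ) ≤ n := Nat.cast_nonneg _
          have hdR : (2 : ℝ) ≤ d := by exact_mod_cast hd2
          have e1 : 8 * (n : ℝ) ≤ ε' * (d + 2) * n := mul_le_mul_of_nonneg_right hdε hnR
          have e2 : 2 * ((c : ℝ) + 1) * (d + 2) ≤ ε' * n * (d + 2) :=
            mul_le_mul_of_nonneg_right hnε (by linarith)
          nlinarith
      _ = 1 * (k : ℝ) ^ ((d - 1) * n + 1) := by rw [one_mul, hk3]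
  calc _ ≤ 1 / (k : ℝ) + 1 / k := add_le_add h1 h2
    _ = 2 / k := by ring

end Pool.Agent.Helper18.IC
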