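import Pool.Agent.Helper18.IC.Pd
import Pool.Agent.Helper18.IC.Num2

/-!
# Programs for tree evaluation which inspect few cells: the number of the right variables
-/

namespace Pool.Agent.Helper18.IC

open Pool.Agent.Helper5.TreeExp

variable {d k : ℕ}

/-- The right variables: one for each node. -/
theorem card_right : (n : ℕ) → (I : Var d k n → Fin k) → {u | IsRight n I u}.ncard + (d - 2) * d ^ n + 1 ≤ d ^ (n + 1) ∨
    d < 2
  | 0, I => by
    rcases Nat.lt_or_ge d 2 with hd | hd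
    · exact Or.inr hd
    · left
      have h1 : {u : Var d k 0 | IsRight 0 I u}.ncard ≤ 1 :=
        (Set.ncard_le_one_iff (Set.toFinite _)).2 (fun {_ _} _ _ => rfl)
      simp only [pow_zero, mul_one, zero_add, pow_one]
      omega
  | n + 1, I => by
    rcases Nat.lt_or_ge d 2 with hd | hd
    · exact Or.inr hd
    · left
      have h1 : {u : Var d k (n + 1) | IsRight (n + 1) I u} ⊆
          insert (rv (n + 1) I) (⋃ c : Fin d, (fun u => (Sum.inr (c, u) : (Fin d → Fin k) ⊕ (Fin d × Var d k n))) ''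
            {u | IsRight n (subI I c) u}) := by
        intro u hu
        rcases u with x | ⟨c, u⟩
        · left
          have h2 : x = args I := hu
          rw [h2]
          rfl
        · right
          exact Set.mem_iUnion.2 ⟨c, u, hu, rfl⟩
      have h2 : ∀ c : Fin d, {u | IsRight n (subI I c) u}.ncard ≤ d ^ (n + 1) - (d - 2) * d ^ n - 1 := by
        intro c
        rcases card_right n (subI I c) with h | h
        · omega
        · omega
      have h3 : {u : Var d k (n + 1) | IsRight (n + 1) I u}.ncard ≤ d * (d ^ (n + 1) - (d - 2) * d ^ n - 1) + 1 := by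
        refine (Set.ncard_le_ncard h1 (Set.toFinite _)).trans ((Set.ncard_insert_le _ _).trans ?_)
        apply Nat.add_le_add_right
        refine (Set.ncard_iUnion_le_of_fintype _).trans ?_
        calc ∑ c : Fin d, ((fun u => (Sum.inr (c, u) : (Fin d → Fin k) ⊕ (Fin d × Var d k n))) ''
            {u | IsRight n (subI I c) u}).ncard ≤ ∑ _c : Fin d, (d ^ (n + 1) - (d - 2) * d ^ n - 1) :=
              Finset.sum_le_sum fun c _ => (Set.ncard_image_le (Set.toFinite _)).trans (h2 c)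
          _ = _ := by simp
      obtain ⟨e, rfl⟩ : ∃ e, d = e + 2 := ⟨d - 2, by omega⟩
      have h4 : 1 ≤ (e + 2) ^ n := Nat.one_le_pow _ _ (by omega)
      have h5 : (e + 2) ^ (n + 1) - (e + 2 - 2) * (e + 2) ^ n - 1 = 2 * (e + 2) ^ n - 1 := by
        have : (e + 2) ^ (n + 1) = e * (e + 2) ^ n + 2 * (e + 2) ^ n := by ring
        rw [this, Nat.add_sub_cancel]
        omega
      rw [h5] at h3
      have h6 : (e + 2) * (2 * (e + 2) ^ n - 1) = 2 * (e + 2) ^ (n + 1) - (e + 2) := by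
        rw [Nat.mul_sub, mul_one]
        congr 1
        ring
      rw [h6] at h3
      have h7 : (e + 2) ^ (n + 1 + 1) = e * (e + 2) ^ (n + 1) + 2 * (e + 2) ^ (n + 1) := by ring
      have h8 : e + 2 ≤ (e + 2) ^ (n + 1) := Nat.le_self_pow (by omega) _
      rw [h7, Nat.add_sub_cancel]
      omega

theorem card_right_le (hd : 2 ≤ d) (n : ℕ) (I : Var d k n → Fin k) : {u | IsRight n I u}.ncard ≤ d ^ (n + 1) := by
  rcases card_right n I with h | h
  · omega
  · omega

/-- For `d ≥ j₀` and `d ^ n ≤ k` the number of the nodes is at most `M ^ ε`, and the pushdown program has at most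
`M ^ 2` states. -/
theorem nodes_all {ε : ℝ} (hε : 0 < ε) : ∃ j₀ : ℕ, ∀ d n k M : ℕ, j₀ ≤ d → 1 ≤ n → d ^ n ≤ k → k ^ d ≤ M →
    ((d ^ (n + 1) : ℕ) : ℝ) ≤ (M : ℝ) ^ ε ∧ 3 * d ^ (n + 1) * k ^ d ≤ M ^ 2 := by
  obtain ⟨j₁, hj₁⟩ := exists_nat_ge (2 / ε)
  refine ⟨j₁ + 4, ?_⟩
  intro d n k M hd hn hk hM
  have hd4 : 4 ≤ d := by omega
  have hdk : d ≤ k := (Nat.le_self_pow (by omega) d).trans hk
  have hk1 : 1 ≤ k := by omega
  have hkR : (1 : ℝ) ≤ k := by exact_mod_cast hk1
  have h1 : d ^ (n + 1) ≤ k ^ 2 := by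
    calc d ^ (n + 1) = d ^ n * d := by ring
      _ ≤ k * k := Nat.mul_le_mul hk hdk
      _ = k ^ 2 := by ring
  constructor
  · have h2 : (2 : ℝ) ≤ d * ε := by
      have h3 : 2 / ε * ε = 2 := div_mul_cancel₀ _ hε.ne'
      have h4 : (j₁ : ℝ) ≤ d := by exact_mod_cast (by omega : j₁ ≤ d)
      nlinarith
    have h5 : ((k : ℝ) ^ d) ≤ M := by exact_mod_cast hM
    calc ((d ^ (n + 1) : ℕ) : ℝ) ≤ ((k ^ 2 : ℕ) : ℝ) := by exact_mod_cast h1
      _ = (k : ℝ) ^ (2 : ℝ) := by
          push_cast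
          rw [← Real.rpow_natCast (k : ℝ) 2]
          norm_num
      _ ≤ (k : ℝ) ^ ((d : ℝ) * ε) := Real.rpow_le_rpow_of_exponent_le hkR h2
      _ = ((k : ℝ) ^ (d : ℝ)) ^ ε := Real.rpow_mul (by linarith) _ _
      _ ≤ (M : ℝ) ^ ε := by
          apply Real.rpow_le_rpow (by positivity) _ hε.le
          rw [Real.rpow_natCast]
          exact h5
  · calc 3 * d ^ (n + 1) * k ^ d ≤ 3 * k ^ 2 * k ^ d :=
          Nat.mul_le_mul_right _ (Nat.mul_le_mul_left _ h1)
      _ ≤ k * k ^ 2 * k ^ d := Nat.mul_le_mul_right _ (Nat.mul_le_mul_right _ (by omega))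
      _ = k ^ 3 * k ^ d := by ring
      _ ≤ k ^ d * k ^ d := Nat.mul_le_mul_right _ (Nat.pow_le_pow_right (by omega) (by omega))
      _ = (k ^ d) ^ 2 := by ring
      _ ≤ M ^ 2 := Nat.pow_le_pow_left hM 2

end Pool.Agent.Helper18.IC
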