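import Pool.Agent.Helper18.IC.Dec

/-!
# Programs for tree evaluation which inspect few cells: arithmetic of the corollary
-/

namespace Pool.Agent.Helper18.IC

open Pool.Agent.Helper5.TreeExp

variable {d k : ℕ}

theorem card_var_succ (n : ℕ) : Nat.card (Var d k (n + 1)) = k ^ d + d * Nat.card (Var d k n) := by
  show Nat.card ((Fin d → Fin k) ⊕ (Fin d × Var d k n)) = _
  have := finite_var (d := d) (k := k) n
  rw [Nat.card_sum, Nat.card_prod]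
  simp

theorem card_var_add_le (hd : 2 ≤ d) (hk : 1 ≤ k) (n : ℕ) :
    Nat.card (Var d k n) + k ^ d ≤ d ^ (n + 1) * k ^ d := by
  have h1 : 1 ≤ k ^ d := Nat.one_le_pow _ _ hk
  induction n with
  | zero =>
    have h0 : Nat.card (Var d k 0) = 1 := by
      show Nat.card Unit = 1
      simp
    rw [h0, zero_add, pow_one]
    nlinarith
  | succ n ih =>
    rw [card_var_succ]
    calc k ^ d + d * Nat.card (Var d k n) + k ^ d
        = 2 * k ^ d + d * Nat.card (Var d k n) := by ring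
      _ ≤ d * k ^ d + d * Nat.card (Var d k n) := Nat.add_le_add_right (Nat.mul_le_mul_right _ hd) _
      _ = d * (Nat.card (Var d k n) + k ^ d) := by ring
      _ ≤ d * (d ^ (n + 1) * k ^ d) := Nat.mul_le_mul_left _ ih
      _ = d ^ (n + 1 + 1) * k ^ d := by ring

theorem card_var_le (hd : 2 ≤ d) (hk : 1 ≤ k) (n : ℕ) : Nat.card (Var d k n) ≤ d ^ (n + 1) * k ^ d :=
  (Nat.le_add_right _ _).trans (card_var_add_le hd hk n)

theorem card_var_pos (n : ℕ) (hk : 1 ≤ k) : 1 ≤ Nat.card (Var d k n) := by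
  induction n with
  | zero =>
    show 1 ≤ Nat.card Unit
    simp
  | succ n _ =>
    rw [card_var_succ]
    have : 1 ≤ k ^ d := Nat.one_le_pow _ _ hk
    omega

/-- `T ≤ M ^ a` with `M ≤ D k ^ d` implies `T ≤ D k ^ (d a)`. -/
theorem rpow_bound {M D k d : ℕ} {a : ℝ} (hD : 1 ≤ D) (hMD : M ≤ D * k ^ d) (ha : 0 ≤ a) (ha1 : a ≤ 1) :
    (M : ℝ) ^ a ≤ D * (k : ℝ) ^ (d * a) := by
  have hDR : (1 : ℝ) ≤ D := by exact_mod_cast hD
  have h2 : (M : ℝ) ≤ D * (k : ℝ) ^ d := by exact_mod_cast hMD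
  calc (M : ℝ) ^ a ≤ (D * (k : ℝ) ^ d) ^ a := Real.rpow_le_rpow (by positivity) h2 ha
    _ = (D : ℝ) ^ a * ((k : ℝ) ^ d) ^ a := Real.mul_rpow (by linarith) (by positivity)
    _ ≤ D * (k : ℝ) ^ (d * a) := by
        apply mul_le_mul
        · calc (D : ℝ) ^ a ≤ (D : ℝ) ^ (1 : ℝ) := Real.rpow_le_rpow_of_exponent_le hDR ha1
            _ = D := Real.rpow_one _
        · rw [← Real.rpow_natCast, ← Real.rpow_mul (by positivity)]
        · positivity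
        · linarith

/-- The arithmetic, for `T ≤ D k ^ (d - 1 - d ε)` and `c ≤ ε n`. -/
theorem num_bound {d c k N T M n D : ℕ} {ε : ℝ} (hd : 2 ≤ d) (hk : 1 ≤ k) (hn : (c : ℝ) ≤ ε * n) (hε : 0 ≤ ε)
    (hM : M ≤ D * k ^ d) (hN : N ≤ M ^ c) (hT : (T : ℝ) ≤ D * (k : ℝ) ^ ((d : ℝ) - 1 - d * ε)) :
    (1 / k + (d : ℝ) ^ n * T / (k : ℝ) ^ d +
      N * (d : ℝ) ^ ((n + 1) ^ 2) * (T : ℝ) ^ n / (k : ℝ) ^ ((d - 1) * n + 1) : ℝ) ≤
      (1 + (d : ℝ) ^ n * D + (D : ℝ) ^ c * (d : ℝ) ^ ((n + 1) ^ 2) * (D : ℝ) ^ n) / k := by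
  have hkR : (1 : ℝ) ≤ k := by exact_mod_cast hk
  have hk0 : (0 : ℝ) < k := by linarith
  have hdR : (2 : ℝ) ≤ d := by exact_mod_cast hd
  have hMR : (M : ℝ) ≤ D * (k : ℝ) ^ d := by exact_mod_cast hM
  have hNR : (N : ℝ) ≤ (M : ℝ) ^ c := by exact_mod_cast hN
  have h2 : (d : ℝ) ^ n * T / (k : ℝ) ^ d ≤ (d : ℝ) ^ n * D / k := by
    rw [div_le_div_iff₀ (by positivity) hk0]
    calc (d : ℝ) ^ n * T * k ≤ (d : ℝ) ^ n * (D * (k : ℝ) ^ ((d : ℝ) - 1 - d * ε)) * k := by gcongr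
      _ = (d : ℝ) ^ n * D * ((k : ℝ) ^ ((d : ℝ) - 1 - d * ε) * (k : ℝ) ^ (1 : ℝ)) := by
          rw [Real.rpow_one]
          ring
      _ = (d : ℝ) ^ n * D * (k : ℝ) ^ ((d : ℝ) - d * ε) := by
          rw [← Real.rpow_add hk0]
          congr 2
          ring
      _ ≤ (d : ℝ) ^ n * D * (k : ℝ) ^ d := by
          apply mul_le_mul_of_nonneg_left _ (by positivity)
          rw [← Real.rpow_natCast (k : ℝ) d]
          apply Real.rpow_le_rpow_of_exponent_le hkR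
          nlinarith
  have h3 : N * (d : ℝ) ^ ((n + 1) ^ 2) * (T : ℝ) ^ n / (k : ℝ) ^ ((d - 1) * n + 1) ≤
      (D : ℝ) ^ c * (d : ℝ) ^ ((n + 1) ^ 2) * (D : ℝ) ^ n / k := by
    rw [div_le_div_iff₀ (by positivity) hk0]
    have hN2 : (N : ℝ) ≤ (D * (k : ℝ) ^ d) ^ c := hNR.trans (by gcongr)
    have hk1 : ((k : ℝ) ^ d) ^ c = (k : ℝ) ^ ((d : ℝ) * c) := by
      rw [← pow_mul, ← Real.rpow_natCast]
      push_cast
      rfl
    have hk2 : ((k : ℝ) ^ ((d : ℝ) - 1 - d * ε)) ^ n = (k : ℝ) ^ (((d : ℝ) - 1 - d * ε) * n) := by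
      rw [← Real.rpow_natCast, ← Real.rpow_mul hk0.le]
    have hk3 : (k : ℝ) ^ ((d - 1) * n + 1) = (k : ℝ) ^ (((d : ℝ) - 1) * n + 1) := by
      rw [← Real.rpow_natCast]
      congr 1
      push_cast [Nat.cast_sub (by omega : 1 ≤ d)]
      ring
    calc N * (d : ℝ) ^ ((n + 1) ^ 2) * (T : ℝ) ^ n * k
        ≤ (D * (k : ℝ) ^ d) ^ c * (d : ℝ) ^ ((n + 1) ^ 2) * (D * (k : ℝ) ^ ((d : ℝ) - 1 - d * ε)) ^ n * k := by
          gcongr
      _ = (D : ℝ) ^ c * (d : ℝ) ^ ((n + 1) ^ 2) * (D : ℝ) ^ n *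
          ((k : ℝ) ^ ((d : ℝ) * c) * (k : ℝ) ^ (((d : ℝ) - 1 - d * ε) * n) * (k : ℝ) ^ (1 : ℝ)) := by
          rw [mul_pow, mul_pow, hk1, hk2, Real.rpow_one]
          ring
      _ = (D : ℝ) ^ c * (d : ℝ) ^ ((n + 1) ^ 2) * (D : ℝ) ^ n *
          (k : ℝ) ^ ((d : ℝ) * c + ((d : ℝ) - 1 - d * ε) * n + 1) := by
          rw [← Real.rpow_add hk0, ← Real.rpow_add hk0]
      _ ≤ (D : ℝ) ^ c * (d : ℝ) ^ ((n + 1) ^ 2) * (D : ℝ) ^ n * (k : ℝ) ^ ((d - 1) * n + 1) := by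
          apply mul_le_mul_of_nonneg_left _ (by positivity)
          rw [hk3]
          apply Real.rpow_le_rpow_of_exponent_le hkR
          have : (d : ℝ) * c ≤ d * (ε * n) := mul_le_mul_of_nonneg_left hn (by positivity)
          nlinarith
  rw [add_div, add_div]
  exact add_le_add (add_le_add le_rfl h2) h3

/-- For all `d`, `c`, `ε`, `η` there are `n`, `k₀`, such that the bound is at most `η`. -/
theorem exists_num {d : ℕ} (hd : 2 ≤ d) (c : ℕ) {ε η : ℝ} (hε : 0 < ε) (hη : 0 < η) : ∃ n k₀ : ℕ, 1 ≤ n ∧ 2 ≤ k₀ ∧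
    ∀ k ≥ k₀, ∀ N T M : ℕ, 1 ≤ M → M ≤ d ^ (n + 1) * k ^ d → N ≤ M ^ c →
      ((T : ℝ) ≤ (M : ℝ) ^ (1 - 1 / (d : ℝ) - ε) ∨ T ≤ 1) →
      (1 / k + (d : ℝ) ^ n * T / (k : ℝ) ^ d +
        N * (d : ℝ) ^ ((n + 1) ^ 2) * (T : ℝ) ^ n / (k : ℝ) ^ ((d - 1) * n + 1) : ℝ) ≤ η := by
  have hdR : (2 : ℝ) ≤ d := by exact_mod_cast hd
  set ε' : ℝ := min ε (1 / 4) with hε'
  have hε0 : 0 < ε' := lt_min hε (by norm_num)
  have hε1 : ε' ≤ ε := min_le_left _ _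
  have hε2 : ε' ≤ 1 / 4 := min_le_right _ _
  obtain ⟨n₁, hn₁⟩ := exists_nat_ge ((c : ℝ) / ε')
  set n := n₁ + 1 with hn
  have hn2 : (c : ℝ) ≤ ε' * n := by
    have h1 : (c : ℝ) / ε' * ε' = c := div_mul_cancel₀ _ hε0.ne'
    have h2 : (n : ℝ) = n₁ + 1 := by rw [hn]; push_cast; ring
    nlinarith
  set D := d ^ (n + 1) with hD
  set Q : ℝ := 1 + (d : ℝ) ^ n * D + (D : ℝ) ^ c * (d : ℝ) ^ ((n + 1) ^ 2) * (D : ℝ) ^ n with hQ
  obtain ⟨k₁, hk₁⟩ := exists_nat_ge (Q / η)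
  refine ⟨n, k₁ + 2, by omega, by omega, ?_⟩
  intro k hk N T M hM1 hM hN hT
  have hk1 : 1 ≤ k := by omega
  have hkR : (0 : ℝ) < k := by exact_mod_cast (by omega : 0 < k)
  have hMR : (1 : ℝ) ≤ M := by exact_mod_cast hM1
  have hD1 : 1 ≤ D := Nat.one_le_pow _ _ (by omega)
  have hd1 : 1 / (d : ℝ) ≤ 1 / 2 := one_div_le_one_div_of_le (by norm_num) hdR
  have hd0 : 0 < 1 / (d : ℝ) := by positivity
  have ha : 0 ≤ 1 - 1 / (d : ℝ) - ε' := by linarith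
  have ha1 : 1 - 1 / (d : ℝ) - ε' ≤ 1 := by linarith
  have hT1 : (T : ℝ) ≤ (M : ℝ) ^ (1 - 1 / (d : ℝ) - ε') := by
    rcases hT with hT | hT
    · exact hT.trans (Real.rpow_le_rpow_of_exponent_le hMR (by linarith))
    · calc (T : ℝ) ≤ 1 := by exact_mod_cast hT
        _ = (M : ℝ) ^ (0 : ℝ) := (Real.rpow_zero _).symm
        _ ≤ _ := Real.rpow_le_rpow_of_exponent_le hMR ha
  have hTD : (T : ℝ) ≤ D * (k : ℝ) ^ ((d : ℝ) - 1 - d * ε') := by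
    have h1 := hT1.trans (rpow_bound hD1 hM ha ha1)
    have h2 : (d : ℝ) * (1 - 1 / (d : ℝ) - ε') = (d : ℝ) - 1 - d * ε' := by
      field_simp
    rw [h2] at h1
    exact h1
  refine (num_bound hd hk1 hn2 hε0.le hM hN hTD).trans ?_
  rw [← hQ, div_le_iff₀ hkR]
  have h2 : (k₁ : ℝ) ≤ k := by exact_mod_cast (by omega : k₁ ≤ k)
  have h3 : Q / η * η = Q := div_mul_cancel₀ _ hη.ne'
  nlinarith

end Pool.Agent.Helper18.IC
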