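import Pool.Agent.Helper18.IC.Num

/-!
# Programs for tree evaluation which inspect few cells: arithmetic, size `M ^ (ε n / 2)`
-/

namespace Pool.Agent.Helper18.IC

/-- The bound is at most `2 / k` for programs with at most `M ^ (ε n / 2)` states. -/
theorem num_lin {ε : ℝ} (hε : 0 < ε) (hε1 : ε ≤ 1) : ∃ d₀ : ℕ, ∀ d n k N T M : ℕ, d₀ ≤ d → 1 ≤ n → d ^ n ≤ k →
    1 ≤ M → M ≤ d ^ (n + 1) * k ^ d → (N : ℝ) ≤ (M : ℝ) ^ (ε * n / 2) → (T : ℝ) ≤ (M : ℝ) ^ (1 - ε) →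
      (d : ℝ) ^ n * T / (k : ℝ) ^ d + N * (d : ℝ) ^ ((n + 1) ^ 2) * (T : ℝ) ^ n / (k : ℝ) ^ ((d - 1) * n + 1) ≤
        2 / (k : ℝ) := by
  obtain ⟨j₁, hj₁⟩ := exists_nat_ge (14 / ε)
  refine ⟨j₁ + 2, ?_⟩
  intro d n k N T M hd hn hk hM1 hM hN hT
  have hd2 : 2 ≤ d := by omega
  have hk1 : 1 ≤ k := (Nat.one_le_pow _ _ (by omega)).trans hk
  have hkR : (1 : ℝ) ≤ k := by exact_mod_cast hk1
  have hk0 : (0 : ℝ) < k := by linarith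
  have hMR : (1 : ℝ) ≤ M := by exact_mod_cast hM1
  have hnR : (1 : ℝ) ≤ n := by exact_mod_cast hn
  have hdR : (2 : ℝ) ≤ d := by exact_mod_cast hd2
  have hdn : (d : ℝ) ^ n ≤ k := by exact_mod_cast hk
  have hdε : 14 ≤ ε * (d + 2) := by
    have h1 : 14 / ε * ε = 14 := div_mul_cancel₀ _ hε.ne'
    have h2 : (j₁ : ℝ) ≤ d := by exact_mod_cast (by omega : j₁ ≤ d)
    nlinarith
  -- `M ≤ k ^ (d + 2)`
  have hM2 : M ≤ k ^ (d + 2) := by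
    calc M ≤ d ^ (n + 1) * k ^ d := hM
      _ ≤ d ^ (n * 2) * k ^ d := Nat.mul_le_mul_right _ (Nat.pow_le_pow_right (by omega) (by omega))
      _ = (d ^ n) ^ 2 * k ^ d := by rw [pow_mul]
      _ ≤ k ^ 2 * k ^ d := Nat.mul_le_mul_right _ (Nat.pow_le_pow_left hk 2)
      _ = k ^ (d + 2) := by ring
  have hM3 : (M : ℝ) ≤ (k : ℝ) ^ ((d : ℝ) + 2) := by
    have h1 : (k : ℝ) ^ ((d : ℝ) + 2) = ((k ^ (d + 2) : ℕ) : ℝ) := by
      push_cast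
      rw [← Real.rpow_natCast (k : ℝ) (d + 2)]
      push_cast
      rfl
    rw [h1]
    exact_mod_cast hM2
  have hT2 : (T : ℝ) ≤ (k : ℝ) ^ (((d : ℝ) + 2) * (1 - ε)) := by
    calc (T : ℝ) ≤ (M : ℝ) ^ (1 - ε) := hT
      _ ≤ ((k : ℝ) ^ ((d : ℝ) + 2)) ^ (1 - ε) := Real.rpow_le_rpow (by linarith) hM3 (by linarith)
      _ = _ := (Real.rpow_mul hk0.le _ _).symm
  have hN2 : (N : ℝ) ≤ (k : ℝ) ^ (((d : ℝ) + 2) * (ε * n / 2)) := by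
    calc (N : ℝ) ≤ (M : ℝ) ^ (ε * n / 2) := hN
      _ ≤ ((k : ℝ) ^ ((d : ℝ) + 2)) ^ (ε * n / 2) := Real.rpow_le_rpow (by linarith) hM3 (by positivity)
      _ = _ := (Real.rpow_mul hk0.le _ _).symm
  have hd3 : (d : ℝ) ^ ((n + 1) ^ 2) ≤ (k : ℝ) ^ ((n : ℝ) + 3) := by
    have h1 : d ^ ((n + 1) ^ 2) ≤ k ^ (n + 3) := by
      calc d ^ ((n + 1) ^ 2) ≤ d ^ (n * (n + 3)) := Nat.pow_le_pow_right (by omega) (by nlinarith)
        _ = (d ^ n) ^ (n + 3) := by rw [pow_mul]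
        _ ≤ k ^ (n + 3) := Nat.pow_le_pow_left hk _
    have h2 : (k : ℝ) ^ ((n : ℝ) + 3) = ((k ^ (n + 3) : ℕ) : ℝ) := by
      push_cast
      rw [← Real.rpow_natCast (k : ℝ) (n + 3)]
      push_cast
      rfl
    rw [h2]
    exact_mod_cast h1
  have hT3 : (T : ℝ) ^ n ≤ (k : ℝ) ^ (((d : ℝ) + 2) * (1 - ε) * n) := by
    calc (T : ℝ) ^ n ≤ ((k : ℝ) ^ (((d : ℝ) + 2) * (1 - ε))) ^ n := by gcongr
      _ = _ := by rw [← Real.rpow_natCast, ← Real.rpow_mul hk0.le]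
  have h1 : (d : ℝ) ^ n * T / (k : ℝ) ^ d ≤ 1 / k := by
    rw [div_le_div_iff₀ (by positivity) hk0]
    calc (d : ℝ) ^ n * T * k ≤ k * (k : ℝ) ^ (((d : ℝ) + 2) * (1 - ε)) * k := by gcongr
      _ = (k : ℝ) ^ (1 + ((d : ℝ) + 2) * (1 - ε) + 1) := by
          rw [Real.rpow_add hk0, Real.rpow_add hk0, Real.rpow_one]
      _ ≤ (k : ℝ) ^ (d : ℝ) := Real.rpow_le_rpow_of_exponent_le hkR (by nlinarith)
      _ = 1 * (k : ℝ) ^ d := by rw [Real.rpow_natCast, one_mul]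
  have h2 : N * (d : ℝ) ^ ((n + 1) ^ 2) * (T : ℝ) ^ n / (k : ℝ) ^ ((d - 1) * n + 1) ≤ 1 / k := by
    rw [div_le_div_iff₀ (by positivity) hk0]
    have hk3 : (k : ℝ) ^ ((d - 1) * n + 1) = (k : ℝ) ^ (((d : ℝ) - 1) * n + 1) := by
      rw [← Real.rpow_natCast]
      congr 1
      push_cast [Nat.cast_sub (by omega : 1 ≤ d)]
      ring
    calc N * (d : ℝ) ^ ((n + 1) ^ 2) * (T : ℝ) ^ n * k
        ≤ (k : ℝ) ^ (((d : ℝ) + 2) * (ε * n / 2)) * (k : ℝ) ^ ((n : ℝ) + 3) *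
          (k : ℝ) ^ (((d : ℝ) + 2) * (1 - ε) * n) * k := by
          gcongr
      _ = (k : ℝ) ^ (((d : ℝ) + 2) * (ε * n / 2) + ((n : ℝ) + 3) + ((d : ℝ) + 2) * (1 - ε) * n + 1) := by
          rw [Real.rpow_add hk0 (((d : ℝ) + 2) * (ε * n / 2) + ((n : ℝ) + 3) + ((d : ℝ) + 2) * (1 - ε) * n) 1,
            Real.rpow_add hk0 (((d : ℝ) + 2) * (ε * n / 2) + ((n : ℝ) + 3)) (((d : ℝ) + 2) * (1 - ε) * n),
            Real.rpow_add hk0 (((d : ℝ) + 2) * (ε * n / 2)) ((n : ℝ) + 3), Real.rpow_one]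
      _ ≤ (k : ℝ) ^ (((d : ℝ) - 1) * n + 1) := by
          apply Real.rpow_le_rpow_of_exponent_le hkR
          have e1 : 14 * (n : ℝ) ≤ ε * (d + 2) * n := mul_le_mul_of_nonneg_right hdε (by linarith)
          nlinarith
      _ = 1 * (k : ℝ) ^ ((d - 1) * n + 1) := by rw [one_mul, hk3]
  calc _ ≤ 1 / (k : ℝ) + 1 / k := add_le_add h1 h2
    _ = 2 / k := by ring

/-- The number of states of the recursion. -/
theorem upper_all {d n k M : ℕ} (hd : 3 ≤ d) (hn : 1 ≤ n) (hk : d ^ n ≤ k) (hM : k ^ d ≤ M) :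
    2 * (d + 1) ^ n * k ^ ((d - 1) * n + 1) ≤ M ^ (n + 1) := by
  have hdk : d ≤ k := (Nat.le_self_pow (by omega) d).trans hk
  have h1 : (d + 1) ^ n ≤ k ^ 2 := by
    calc (d + 1) ^ n ≤ (d ^ 2) ^ n := Nat.pow_le_pow_left (by nlinarith) n
      _ = (d ^ n) ^ 2 := by rw [← pow_mul, ← pow_mul, Nat.mul_comm]
      _ ≤ k ^ 2 := Nat.pow_le_pow_left hk 2
  obtain ⟨e, rfl⟩ : ∃ e, d = e + 3 := ⟨d - 3, by omega⟩
  calc 2 * (e + 3 + 1) ^ n * k ^ ((e + 3 - 1) * n + 1) ≤ k * k ^ 2 * k ^ ((e + 3 - 1) * n + 1) :=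
        Nat.mul_le_mul_right _ (Nat.mul_le_mul (by omega) h1)
    _ = k ^ ((e + 2) * n + 4) := by
        have : e + 3 - 1 = e + 2 := by omega
        rw [this]
        ring
    _ ≤ k ^ ((e + 3) * (n + 1)) := Nat.pow_le_pow_right (by omega) (by nlinarith)
    _ = (k ^ (e + 3)) ^ (n + 1) := by rw [pow_mul]
    _ ≤ M ^ (n + 1) := Nat.pow_le_pow_left hM _

end Pool.Agent.Helper18.IC
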