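import Pool.Agent.Helper18.IC.Num

/-!
# Programs for tree evaluation which inspect few cells: arithmetic for blocks of two levels
-/

namespace Pool.Agent.Helper18.IC

theorem two_pow_le_factorial (m : ℕ) : 2 ^ m ≤ (m + 1).factorial := by
  induction m with
  | zero => simp
  | succ m ih =>
    rw [Nat.factorial_succ, pow_succ, Nat.mul_comm]
    exact Nat.mul_le_mul (by omega) ih

/-- `(m + 1)! ≥ k ^ (2 d + 2)` for `m = ⌊k ^ (ε / 16)⌋`. -/
theorem factorial_big {ε : ℝ} (hε : 0 < ε) (hε1 : ε ≤ 1) {A d k : ℕ} (hA : 160 ≤ A * ε) (hd : 2 ≤ d) (hk : 1 ≤ k)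
    (hkA : (A * d : ℝ) ≤ (k : ℝ) ^ (ε / 32)) :
    ((k : ℝ)) ^ (2 * (d : ℝ) + 2) ≤ ((⌊(k : ℝ) ^ (ε / 16)⌋₊ + 1).factorial : ℕ) := by
  have hkR : (1 : ℝ) ≤ k := by exact_mod_cast hk
  have hk0 : (0 : ℝ) < k := by linarith
  have hdR : (2 : ℝ) ≤ d := by exact_mod_cast hd
  set x : ℝ := (k : ℝ) ^ (ε / 32) with hx
  have hxx : (k : ℝ) ^ (ε / 16) = x * x := by
    rw [hx, ← Real.rpow_add hk0]
    congr 1
    ring
  set m := ⌊(k : ℝ) ^ (ε / 16)⌋₊ with hm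
  have hm1 : x * x - 1 ≤ m := by
    have := Nat.lt_floor_add_one ((k : ℝ) ^ (ε / 16))
    rw [← hm, hxx] at this
    linarith
  have hlog : Real.log k ≤ x / (ε / 32) := Real.log_le_rpow_div hk0.le (by positivity)
  have hlog2 : (0.6931471803 : ℝ) < Real.log 2 := Real.log_two_gt_d9
  have hlog3 : Real.log k ≤ 32 / ε * x := by
    have : x / (ε / 32) = 32 / ε * x := by field_simp
    linarith
  have hlogk : 0 ≤ Real.log k := Real.log_nonneg hkR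
  have hAR : (160 : ℝ) ≤ A := by
    have h0 : (0 : ℝ) ≤ A := Nat.cast_nonneg _
    nlinarith
  have hx1 : 160 ≤ x := by
    calc (160 : ℝ) ≤ A := hAR
      _ = A * 1 := (mul_one _).symm
      _ ≤ A * d := mul_le_mul_of_nonneg_left (by linarith) (by linarith)
      _ ≤ x := hkA
  have h2 : 160 * (1 / ε) ≤ A := by
    rw [mul_one_div, div_le_iff₀ hε]
    exact hA
  have h3 : 160 * (1 / ε) * d ≤ x := by
    calc 160 * (1 / ε) * d ≤ A * d := mul_le_mul_of_nonneg_right h2 (by linarith)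
      _ ≤ x := hkA
  -- `(2 d + 2) log k ≤ m log 2`
  have hkey : (2 * (d : ℝ) + 2) * Real.log k ≤ m * Real.log 2 := by
    have h1 : (2 * (d : ℝ) + 2) * Real.log k ≤ 3 * d * (32 / ε * x) :=
      mul_le_mul (by linarith) hlog3 hlogk (by positivity)
    have h4 : 3 * d * (32 / ε * x) = 96 * (1 / ε * d * x) := by ring
    have h5 : 160 * (1 / ε * d * x) ≤ x * x := by
      calc 160 * (1 / ε * d * x) = (160 * (1 / ε) * d) * x := by ring
        _ ≤ x * x := mul_le_mul_of_nonneg_right h3 (by linarith)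
    have h8 : 30 ≤ x * x := by nlinarith
    have h7 : 96 * (1 / ε * d * x) ≤ 3 / 5 * (x * x) := by linarith
    calc (2 * (d : ℝ) + 2) * Real.log k ≤ 3 / 5 * (x * x) := by linarith
      _ ≤ (x * x - 1) * 0.6931471803 := by linarith
      _ ≤ m * Real.log 2 := mul_le_mul hm1 hlog2.le (by norm_num) (Nat.cast_nonneg _)
  have h1 : (k : ℝ) ^ (2 * (d : ℝ) + 2) ≤ (2 : ℝ) ^ (m : ℝ) := by
    rw [Real.rpow_def_of_pos hk0, Real.rpow_def_of_pos (by norm_num : (0 : ℝ) < 2)]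
    apply Real.exp_le_exp.2
    linarith
  refine h1.trans ?_
  rw [Real.rpow_natCast]
  exact_mod_cast two_pow_le_factorial m

theorem A_large {ε : ℝ} (hε1 : ε ≤ 1) {A : ℕ} (hAε : 160 ≤ A * ε) : (160 : ℝ) ≤ A := by
  have h0 : (0 : ℝ) ≤ A := Nat.cast_nonneg _
  nlinarith

theorem pow_le_rpow {A d n k : ℕ} (hAd : 1 ≤ A * d) (hkA : (A * d) ^ (A * n) ≤ k) {s : ℝ} (hs : 0 ≤ s) :
    (A * d : ℝ) ^ ((A : ℝ) * n * s) ≤ (k : ℝ) ^ s := by
  have hAdR : (1 : ℝ) ≤ A * d := by exact_mod_cast hAd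
  have hkAR : (A * d : ℝ) ^ ((A : ℝ) * n) ≤ k := by
    have h1 : (A * d : ℝ) ^ ((A : ℝ) * n) = (((A * d) ^ (A * n) : ℕ) : ℝ) := by
      push_cast
      rw [← Real.rpow_natCast]
      push_cast
      rfl
    rw [h1]
    exact_mod_cast hkA
  rw [Real.rpow_mul (by linarith)]
  exact Real.rpow_le_rpow (by positivity) hkAR hs

/-- `A d ≤ k ^ (ε / 32)` and `d ^ (n + 1) ≤ k ^ (ε / 24)`. -/
theorem small_pow {ε : ℝ} (hε : 0 < ε) (hε1 : ε ≤ 1) {A d n k : ℕ} (hAε : 160 ≤ A * ε) (hd : 2 ≤ d) (hn : 1 ≤ n)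
    (hkA : (A * d) ^ (A * n) ≤ k) :
    (A * d : ℝ) ≤ (k : ℝ) ^ (ε / 32) ∧ (d : ℝ) ^ (n + 1) ≤ (k : ℝ) ^ (ε / 24) := by
  have hAR := A_large hε1 hAε
  have hA1 : 1 ≤ A := by
    have : (1 : ℝ) ≤ A := by linarith
    exact_mod_cast this
  have hdR : (2 : ℝ) ≤ d := by exact_mod_cast hd
  have hnR : (1 : ℝ) ≤ n := by exact_mod_cast hn
  have hAd : 1 ≤ A * d := Nat.mul_pos hA1 (by omega)
  have hAdR : (1 : ℝ) ≤ A * d := by exact_mod_cast hAd
  have h160 : 160 * n ≤ A * ε * n := mul_le_mul_of_nonneg_right hAε (by linarith)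
  constructor
  · refine le_trans ?_ (pow_le_rpow hAd hkA (by positivity : 0 ≤ ε / 32))
    calc (A * d : ℝ) = (A * d : ℝ) ^ (1 : ℝ) := (Real.rpow_one _).symm
      _ ≤ _ := by
        apply Real.rpow_le_rpow_of_exponent_le hAdR
        nlinarith
  · refine le_trans ?_ (pow_le_rpow hAd hkA (by positivity : 0 ≤ ε / 24))
    calc (d : ℝ) ^ (n + 1) = (d : ℝ) ^ ((n : ℝ) + 1) := by
          rw [← Real.rpow_natCast]
          push_cast
          rfl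
      _ ≤ (A * d : ℝ) ^ ((n : ℝ) + 1) := Real.rpow_le_rpow (by linarith) (by nlinarith) (by linarith)
      _ ≤ _ := by
        apply Real.rpow_le_rpow_of_exponent_le hAdR
        nlinarith

/-- The arithmetic for blocks of two levels, uniform in the arity `d`. -/
theorem num_blocks {ε : ℝ} (hε : 0 < ε) (hε1 : ε ≤ 1) {A d n k : ℕ} (hAε : 160 ≤ A * ε) (hd : 2 ≤ d) (hn : 2 ≤ n)
    (hkA : (A * d) ^ (A * n) ≤ k) : ∃ m : ℕ, 1 ≤ m ∧ ∀ N T M : ℕ, 1 ≤ M → M ≤ d ^ (n + 1) * k ^ d →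
      (N : ℝ) ≤ (M : ℝ) ^ (ε * n / 8) → (T : ℝ) ≤ (M : ℝ) ^ (1 - ε) →
      (d : ℝ) ^ n * (T * (m : ℝ) ^ d) / (k : ℝ) ^ d +
        N * (d : ℝ) ^ ((n + 1) ^ 2) * (T * (m : ℝ) ^ d) ^ (n / 2) / (k : ℝ) ^ (d * (n / 2)) +
        (d : ℝ) ^ (n + 1) * (k : ℝ) ^ (d + 1) / ((m + 1).factorial : ℕ) ≤ 3 * (k : ℝ) ^ (-(ε / 2)) := by
  have hAR := A_large hε1 hAε
  have hA1 : 1 ≤ A := by
    have : (1 : ℝ) ≤ A := by linarith
    exact_mod_cast this
  have hdR : (2 : ℝ) ≤ d := by exact_mod_cast hd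
  have hnR : (2 : ℝ) ≤ n := by exact_mod_cast hn
  have hAd : 1 ≤ A * d := Nat.mul_pos hA1 (by omega)
  have hk1 : 1 ≤ k := (Nat.one_le_pow _ _ hAd).trans hkA
  have hkR : (1 : ℝ) ≤ k := by exact_mod_cast hk1
  have hk0 : (0 : ℝ) < k := by linarith
  have hAdR : (1 : ℝ) ≤ A * d := by exact_mod_cast hAd
  have hAd0 : (0 : ℝ) < A * d := by linarith
  obtain ⟨hk32, hdn⟩ := small_pow hε hε1 hAε hd (by omega : 1 ≤ n) hkA
  have hfac := factorial_big hε hε1 hAε hd hk1 hk32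
  set m := ⌊(k : ℝ) ^ (ε / 16)⌋₊ with hm
  have hm1 : 1 ≤ m := by
    rw [hm]
    apply Nat.le_floor
    simpa using Real.one_le_rpow hkR (by positivity : (0 : ℝ) ≤ ε / 16)
  refine ⟨m, hm1, ?_⟩
  intro N T M hM1 hM hN hT
  have hMR : (1 : ℝ) ≤ M := by exact_mod_cast hM1
  have hmle : (m : ℝ) ^ d ≤ (k : ℝ) ^ (ε / 16 * d) := by
    calc (m : ℝ) ^ d ≤ ((k : ℝ) ^ (ε / 16)) ^ d := by
          apply pow_le_pow_left₀ (Nat.cast_nonneg _)
          exact Nat.floor_le (by positivity)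
      _ = _ := by rw [← Real.rpow_natCast, ← Real.rpow_mul hk0.le]
  have hkd : (k : ℝ) ^ d = (k : ℝ) ^ (d : ℝ) := (Real.rpow_natCast _ _).symm
  have hM2 : (M : ℝ) ≤ (k : ℝ) ^ (ε / 24 + d) := by
    calc (M : ℝ) ≤ (d : ℝ) ^ (n + 1) * (k : ℝ) ^ d := by exact_mod_cast hM
      _ ≤ (k : ℝ) ^ (ε / 24) * (k : ℝ) ^ d := mul_le_mul_of_nonneg_right hdn (by positivity)
      _ = _ := by rw [hkd, ← Real.rpow_add hk0]
  have hT2 : (T : ℝ) ≤ (k : ℝ) ^ (ε / 24 + d - d * ε) := by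
    calc (T : ℝ) ≤ (M : ℝ) ^ (1 - ε) := hT
      _ ≤ ((k : ℝ) ^ (ε / 24 + d)) ^ (1 - ε) := Real.rpow_le_rpow (by linarith) hM2 (by linarith)
      _ = (k : ℝ) ^ ((ε / 24 + d) * (1 - ε)) := (Real.rpow_mul hk0.le _ _).symm
      _ ≤ _ := by
        apply Real.rpow_le_rpow_of_exponent_le hkR
        nlinarith
  have hN2 : (N : ℝ) ≤ (k : ℝ) ^ ((ε / 24 + d) * (ε * n / 8)) := by
    calc (N : ℝ) ≤ (M : ℝ) ^ (ε * n / 8) := hN
      _ ≤ ((k : ℝ) ^ (ε / 24 + d)) ^ (ε * n / 8) := Real.rpow_le_rpow (by linarith) hM2 (by positivity)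
      _ = _ := (Real.rpow_mul hk0.le _ _).symm
  have hTm : T * (m : ℝ) ^ d ≤ (k : ℝ) ^ (ε / 24 + d - d * ε + ε / 16 * d) := by
    calc T * (m : ℝ) ^ d ≤ (k : ℝ) ^ (ε / 24 + d - d * ε) * (k : ℝ) ^ (ε / 16 * d) :=
          mul_le_mul hT2 hmle (by positivity) (by positivity)
      _ = _ := (Real.rpow_add hk0 _ _).symm
  have hdε : 2 * ε ≤ d * ε := mul_le_mul_of_nonneg_right hdR hε.le
  -- the first term
  have h1 : (d : ℝ) ^ n * (T * (m : ℝ) ^ d) / (k : ℝ) ^ d ≤ (k : ℝ) ^ (-(ε / 2)) := by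
    rw [div_le_iff₀ (by positivity)]
    calc (d : ℝ) ^ n * (T * (m : ℝ) ^ d) ≤ (d : ℝ) ^ (n + 1) * (T * (m : ℝ) ^ d) := by
          apply mul_le_mul_of_nonneg_right _ (by positivity)
          exact pow_le_pow_right₀ (by linarith) (by omega)
      _ ≤ (k : ℝ) ^ (ε / 24) * (k : ℝ) ^ (ε / 24 + d - d * ε + ε / 16 * d) :=
          mul_le_mul hdn hTm (by positivity) (by positivity)
      _ = (k : ℝ) ^ (ε / 24 + (ε / 24 + d - d * ε + ε / 16 * d)) := (Real.rpow_add hk0 _ _).symm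
      _ ≤ (k : ℝ) ^ (-(ε / 2) + d) := by
          apply Real.rpow_le_rpow_of_exponent_le hkR
          nlinarith
      _ = (k : ℝ) ^ (-(ε / 2)) * (k : ℝ) ^ d := by rw [Real.rpow_add hk0, hkd]
  -- the second term
  have h2 : N * (d : ℝ) ^ ((n + 1) ^ 2) * (T * (m : ℝ) ^ d) ^ (n / 2) / (k : ℝ) ^ (d * (n / 2)) ≤
      (k : ℝ) ^ (-(ε / 2)) := by
    rw [div_le_iff₀ (by positivity)]
    have hd2 : (d : ℝ) ^ ((n + 1) ^ 2) ≤ (k : ℝ) ^ (ε / 24 * (n + 1)) := by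
      calc (d : ℝ) ^ ((n + 1) ^ 2) = ((d : ℝ) ^ (n + 1)) ^ (n + 1) := by rw [← pow_mul]; congr 1; ring
        _ ≤ ((k : ℝ) ^ (ε / 24)) ^ (n + 1) := pow_le_pow_left₀ (by positivity) hdn _
        _ = _ := by
          rw [← Real.rpow_natCast, ← Real.rpow_mul hk0.le]
          push_cast
          rfl
    have hh : (n : ℝ) ≤ 3 * ((n / 2 : ℕ) : ℝ) := by
      have : n ≤ 3 * (n / 2) := by omega
      exact_mod_cast this
    set h : ℕ := n / 2 with hhdef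
    have hTm2 : (T * (m : ℝ) ^ d) ^ h ≤ (k : ℝ) ^ ((ε / 24 + d - d * ε + ε / 16 * d) * h) := by
      calc (T * (m : ℝ) ^ d) ^ h ≤ ((k : ℝ) ^ (ε / 24 + d - d * ε + ε / 16 * d)) ^ h :=
            pow_le_pow_left₀ (by positivity) hTm _
        _ = _ := by rw [← Real.rpow_natCast, ← Real.rpow_mul hk0.le]
    have hkdh : (k : ℝ) ^ (d * h) = (k : ℝ) ^ ((d : ℝ) * h) := by
      rw [← Real.rpow_natCast]
      push_cast
      rfl
    calc N * (d : ℝ) ^ ((n + 1) ^ 2) * (T * (m : ℝ) ^ d) ^ h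
        ≤ (k : ℝ) ^ ((ε / 24 + d) * (ε * n / 8)) * (k : ℝ) ^ (ε / 24 * (n + 1)) *
          (k : ℝ) ^ ((ε / 24 + d - d * ε + ε / 16 * d) * h) :=
          mul_le_mul (mul_le_mul hN2 hd2 (by positivity) (by positivity)) hTm2 (by positivity) (by positivity)
      _ = (k : ℝ) ^ ((ε / 24 + d) * (ε * n / 8) + ε / 24 * (n + 1) + (ε / 24 + d - d * ε + ε / 16 * d) * h) := by
          rw [Real.rpow_add hk0 ((ε / 24 + d) * (ε * n / 8) + ε / 24 * (n + 1)) _,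
            Real.rpow_add hk0 ((ε / 24 + d) * (ε * n / 8)) _]
      _ ≤ (k : ℝ) ^ (-(ε / 2) + (d : ℝ) * h) := by
          apply Real.rpow_le_rpow_of_exponent_le hkR
          have hεn : 2 * ε ≤ ε * n := by nlinarith
          have hεεn : ε * (ε * n) ≤ 1 * (ε * n) := mul_le_mul_of_nonneg_right hε1 (by positivity)
          have hdεn : 2 * (ε * n) ≤ d * (ε * n) := mul_le_mul_of_nonneg_right hdR (by positivity)
          have hc : 0 ≤ 15 / 16 * (d * ε) - ε / 24 := by linarith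
          have hch : (15 / 16 * (d * ε) - ε / 24) * n ≤ (15 / 16 * (d * ε) - ε / 24) * (3 * h) :=
            mul_le_mul_of_nonneg_left hh hc
          have e1 : (ε / 24 + d) * (ε * n / 8) = ε * (ε * n) / 192 + d * (ε * n) / 8 := by ring
          have e2 : ε / 24 * (n + 1) = (ε * n) / 24 + ε / 24 := by ring
          have e3 : (ε / 24 + d - d * ε + ε / 16 * d) * h = d * h - (15 / 16 * (d * ε) - ε / 24) * h := by ring
          have e4 : (15 / 16 * (d * ε) - ε / 24) * n = 15 / 16 * (d * (ε * n)) - (ε * n) / 24 := by ring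
          rw [e1, e2, e3]
          rw [e4] at hch
          linarith
      _ = (k : ℝ) ^ (-(ε / 2)) * (k : ℝ) ^ (d * h) := by rw [Real.rpow_add hk0, hkdh]
  -- the third term
  have h3 : (d : ℝ) ^ (n + 1) * (k : ℝ) ^ (d + 1) / ((m + 1).factorial : ℕ) ≤ (k : ℝ) ^ (-(ε / 2)) := by
    have hf0 : (0 : ℝ) < ((m + 1).factorial : ℕ) := by exact_mod_cast Nat.factorial_pos _
    rw [div_le_iff₀ hf0]
    calc (d : ℝ) ^ (n + 1) * (k : ℝ) ^ (d + 1) ≤ (k : ℝ) ^ (ε / 24) * (k : ℝ) ^ ((d : ℝ) + 1) := by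
          apply mul_le_mul hdn _ (by positivity) (by positivity)
          rw [← Real.rpow_natCast]
          push_cast
          exact le_rfl
      _ = (k : ℝ) ^ (ε / 24 + ((d : ℝ) + 1)) := (Real.rpow_add hk0 _ _).symm
      _ ≤ (k : ℝ) ^ (-(ε / 2) + (2 * (d : ℝ) + 2)) := by
          apply Real.rpow_le_rpow_of_exponent_le hkR
          linarith
      _ = (k : ℝ) ^ (-(ε / 2)) * (k : ℝ) ^ (2 * (d : ℝ) + 2) := Real.rpow_add hk0 _ _
      _ ≤ (k : ℝ) ^ (-(ε / 2)) * ((m + 1).factorial : ℕ) := mul_le_mul_of_nonneg_left hfac (by positivity)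
  linarith

end Pool.Agent.Helper18.IC
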