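import Pool.Agent.Helper18.IC.Num4

/-!
# Programs for tree evaluation which inspect few cells: all the arithmetic of the final statement
-/

namespace Pool.Agent.Helper18.IC

theorem three_le {ε : ℝ} (hε : 0 < ε) (hε1 : ε ≤ 1) {A d k : ℕ} (hAε : 160 ≤ A * ε) (hd : 2 ≤ d) (hk : 1 ≤ k)
    (hk32 : (A * d : ℝ) ≤ (k : ℝ) ^ (ε / 32)) : 3 * (k : ℝ) ^ (-(ε / 2)) ≤ (k : ℝ) ^ (-(ε / 3)) := by
  have hAR := A_large hε1 hAε
  have hdR : (2 : ℝ) ≤ d := by exact_mod_cast hd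
  have hkR : (1 : ℝ) ≤ k := by exact_mod_cast hk
  have hk0 : (0 : ℝ) < k := by linarith
  have h3 : (3 : ℝ) ≤ (k : ℝ) ^ (ε / 6) := by
    calc (3 : ℝ) ≤ A * d := by nlinarith
      _ ≤ (k : ℝ) ^ (ε / 32) := hk32
      _ ≤ (k : ℝ) ^ (ε / 6) := Real.rpow_le_rpow_of_exponent_le hkR (by linarith)
  calc 3 * (k : ℝ) ^ (-(ε / 2)) ≤ (k : ℝ) ^ (ε / 6) * (k : ℝ) ^ (-(ε / 2)) :=
        mul_le_mul_of_nonneg_right h3 (by positivity)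
    _ = (k : ℝ) ^ (-(ε / 3)) := by
        rw [← Real.rpow_add hk0]
        congr 1
        ring

/-- Two levels. -/
theorem num_one {ε : ℝ} (hε : 0 < ε) (hε1 : ε ≤ 1) {A d k : ℕ} (hAε : 160 ≤ A * ε) (hd : 2 ≤ d)
    (hkA : (A * d) ^ (A * 1) ≤ k) {N T M : ℕ} (hM1 : 1 ≤ M) (hM : M ≤ d ^ (1 + 1) * k ^ d)
    (hN : (N : ℝ) ≤ (M : ℝ) ^ (ε * (1 : ℕ) / 8)) (hT : (T : ℝ) ≤ (M : ℝ) ^ (1 - ε)) :
    (d : ℝ) ^ 1 * T / (k : ℝ) ^ d + N * (d : ℝ) ^ ((1 + 1) ^ 2) * (T : ℝ) ^ 1 / (k : ℝ) ^ ((d - 1) * 1 + 1) ≤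
      (k : ℝ) ^ (-(ε / 3)) := by
  have hAR := A_large hε1 hAε
  have hA1 : 1 ≤ A := by
    have : (1 : ℝ) ≤ A := by linarith
    exact_mod_cast this
  have hdR : (2 : ℝ) ≤ d := by exact_mod_cast hd
  have hAd : 1 ≤ A * d := Nat.mul_pos hA1 (by omega)
  have hk1 : 1 ≤ k := (Nat.one_le_pow _ _ hAd).trans hkA
  have hkR : (1 : ℝ) ≤ k := by exact_mod_cast hk1
  have hk0 : (0 : ℝ) < k := by linarith
  have hMR : (1 : ℝ) ≤ M := by exact_mod_cast hM1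
  obtain ⟨hk32, hdn⟩ := small_pow hε hε1 hAε hd (le_refl 1) hkA
  have hkd : (k : ℝ) ^ d = (k : ℝ) ^ (d : ℝ) := (Real.rpow_natCast _ _).symm
  have hM2 : (M : ℝ) ≤ (k : ℝ) ^ (ε / 24 + d) := by
    calc (M : ℝ) ≤ (d : ℝ) ^ (1 + 1) * (k : ℝ) ^ d := by exact_mod_cast hM
      _ ≤ (k : ℝ) ^ (ε / 24) * (k : ℝ) ^ d := mul_le_mul_of_nonneg_right hdn (by positivity)
      _ = _ := by rw [hkd, ← Real.rpow_add hk0]
  have hT2 : (T : ℝ) ≤ (k : ℝ) ^ (ε / 24 + d - d * ε) := by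
    calc (T : ℝ) ≤ (M : ℝ) ^ (1 - ε) := hT
      _ ≤ ((k : ℝ) ^ (ε / 24 + d)) ^ (1 - ε) := Real.rpow_le_rpow (by linarith) hM2 (by linarith)
      _ = (k : ℝ) ^ ((ε / 24 + d) * (1 - ε)) := (Real.rpow_mul hk0.le _ _).symm
      _ ≤ _ := by
        apply Real.rpow_le_rpow_of_exponent_le hkR
        nlinarith
  have hN2 : (N : ℝ) ≤ (k : ℝ) ^ ((ε / 24 + d) * (ε / 8)) := by
    calc (N : ℝ) ≤ (M : ℝ) ^ (ε * (1 : ℕ) / 8) := hN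
      _ = (M : ℝ) ^ (ε / 8) := by
          congr 1
          push_cast
          ring
      _ ≤ ((k : ℝ) ^ (ε / 24 + d)) ^ (ε / 8) := Real.rpow_le_rpow (by linarith) hM2 (by positivity)
      _ = _ := (Real.rpow_mul hk0.le _ _).symm
  have hdε : 2 * ε ≤ d * ε := mul_le_mul_of_nonneg_right hdR hε.le
  have h1 : (d : ℝ) ^ 1 * T / (k : ℝ) ^ d ≤ (k : ℝ) ^ (-(ε / 2)) := by
    rw [div_le_iff₀ (by positivity)]
    calc (d : ℝ) ^ 1 * T ≤ (d : ℝ) ^ (1 + 1) * T := by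
          apply mul_le_mul_of_nonneg_right _ (Nat.cast_nonneg _)
          exact pow_le_pow_right₀ (by linarith) (by omega)
      _ ≤ (k : ℝ) ^ (ε / 24) * (k : ℝ) ^ (ε / 24 + d - d * ε) :=
          mul_le_mul hdn hT2 (Nat.cast_nonneg _) (by positivity)
      _ = (k : ℝ) ^ (ε / 24 + (ε / 24 + d - d * ε)) := (Real.rpow_add hk0 _ _).symm
      _ ≤ (k : ℝ) ^ (-(ε / 2) + d) := by
          apply Real.rpow_le_rpow_of_exponent_le hkR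
          linarith
      _ = (k : ℝ) ^ (-(ε / 2)) * (k : ℝ) ^ d := by rw [Real.rpow_add hk0, hkd]
  have h2 : N * (d : ℝ) ^ ((1 + 1) ^ 2) * (T : ℝ) ^ 1 / (k : ℝ) ^ ((d - 1) * 1 + 1) ≤ (k : ℝ) ^ (-(ε / 2)) := by
    have he : (d - 1) * 1 + 1 = d := by omega
    rw [he, div_le_iff₀ (by positivity), pow_one]
    have hd2 : (d : ℝ) ^ ((1 + 1) ^ 2) ≤ (k : ℝ) ^ (ε / 12) := by
      calc (d : ℝ) ^ ((1 + 1) ^ 2) = ((d : ℝ) ^ (1 + 1)) * ((d : ℝ) ^ (1 + 1)) := by ring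
        _ ≤ (k : ℝ) ^ (ε / 24) * (k : ℝ) ^ (ε / 24) := mul_le_mul hdn hdn (by positivity) (by positivity)
        _ = (k : ℝ) ^ (ε / 12) := by
          rw [← Real.rpow_add hk0]
          congr 1
          ring
    calc N * (d : ℝ) ^ ((1 + 1) ^ 2) * T
        ≤ (k : ℝ) ^ ((ε / 24 + d) * (ε / 8)) * (k : ℝ) ^ (ε / 12) * (k : ℝ) ^ (ε / 24 + d - d * ε) :=
          mul_le_mul (mul_le_mul hN2 hd2 (by positivity) (by positivity)) hT2 (by positivity) (by positivity)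
      _ = (k : ℝ) ^ ((ε / 24 + d) * (ε / 8) + ε / 12 + (ε / 24 + d - d * ε)) := by
          rw [Real.rpow_add hk0 ((ε / 24 + d) * (ε / 8) + ε / 12) _, Real.rpow_add hk0 ((ε / 24 + d) * (ε / 8)) _]
      _ ≤ (k : ℝ) ^ (-(ε / 2) + d) := by
          apply Real.rpow_le_rpow_of_exponent_le hkR
          have hεε : ε * ε ≤ 1 * ε := mul_le_mul_of_nonneg_right hε1 hε.le
          nlinarith
      _ = (k : ℝ) ^ (-(ε / 2)) * (k : ℝ) ^ d := by rw [Real.rpow_add hk0, hkd]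
  have h3 := three_le hε hε1 hAε hd hk1 hk32
  have h4 : 0 ≤ (k : ℝ) ^ (-(ε / 2)) := by positivity
  linarith

theorem num_final {ε : ℝ} (hε : 0 < ε) (hε1 : ε ≤ 1) : ∃ A : ℕ, 1 ≤ A ∧ ∀ d n k : ℕ, 2 ≤ d → 1 ≤ n →
    (A * d) ^ (A * n) ≤ k →
    (∀ N T M : ℕ, 1 ≤ M → M ≤ d ^ (n + 1) * k ^ d → (N : ℝ) ≤ (M : ℝ) ^ (ε * n / 8) →
      (T : ℝ) ≤ (M : ℝ) ^ (1 - ε) →
      (n = 1 → (d : ℝ) ^ n * T / (k : ℝ) ^ d +
        N * (d : ℝ) ^ ((n + 1) ^ 2) * (T : ℝ) ^ n / (k : ℝ) ^ ((d - 1) * n + 1) ≤ (k : ℝ) ^ (-(ε / 3))) ∧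
      (2 ≤ n → ∃ m : ℕ, 1 ≤ m ∧ (d : ℝ) ^ n * (T * (m : ℝ) ^ d) / (k : ℝ) ^ d +
        N * (d : ℝ) ^ ((n + 1) ^ 2) * (T * (m : ℝ) ^ d) ^ (n / 2) / (k : ℝ) ^ (d * (n / 2)) +
        (d : ℝ) ^ (n + 1) * (k : ℝ) ^ (d + 1) / ((m + 1).factorial : ℕ) ≤ (k : ℝ) ^ (-(ε / 3)))) ∧
    (∀ M : ℕ, k ^ d ≤ M → ((d ^ (n + 1) : ℕ) : ℝ) ≤ (M : ℝ) ^ ε ∧ 3 * d ^ (n + 1) * k ^ d ≤ M ^ 2 ∧
      2 * (d + 1) ^ n * k ^ ((d - 1) * n + 1) ≤ M ^ (n + 1)) := by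
  obtain ⟨A, hA⟩ := exists_nat_ge (160 / ε)
  have hAε : 160 ≤ A * ε := by
    rw [div_le_iff₀ hε] at hA
    exact hA
  have hAR := A_large hε1 hAε
  have hA160 : 160 ≤ A := by exact_mod_cast hAR
  refine ⟨A, by omega, ?_⟩
  intro d n k hd hn hkA
  have hAd : 320 ≤ A * d := Nat.mul_le_mul hA160 hd
  have hk1 : 1 ≤ k := (Nat.one_le_pow _ _ (by omega)).trans hkA
  have hkR : (1 : ℝ) ≤ k := by exact_mod_cast hk1
  obtain ⟨hk32, hdn⟩ := small_pow hε hε1 hAε hd hn hkA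
  have h3 := three_le hε hε1 hAε hd hk1 hk32
  refine ⟨fun N T M hM1 hM hN hT => ⟨fun hn1 => ?_, fun hn2 => ?_⟩, fun M hM => ⟨?_, ?_, ?_⟩⟩
  · subst hn1
    exact num_one hε hε1 hAε hd hkA hM1 hM hN hT
  · obtain ⟨m, hm, h⟩ := num_blocks hε hε1 hAε hd hn2 hkA
    exact ⟨m, hm, (h N T M hM1 hM hN hT).trans h3⟩
  · have hMR : ((k : ℝ)) ≤ M := by
      have h1 : k ≤ M := (Nat.le_self_pow (by omega) k).trans hM
      exact_mod_cast h1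
    push_cast
    calc (d : ℝ) ^ (n + 1) ≤ (k : ℝ) ^ (ε / 24) := hdn
      _ ≤ (k : ℝ) ^ ε := Real.rpow_le_rpow_of_exponent_le hkR (by linarith)
      _ ≤ (M : ℝ) ^ ε := Real.rpow_le_rpow (by linarith) hMR hε.le
  · have h1 : 3 * d ^ (n + 1) ≤ k := by
      calc 3 * d ^ (n + 1) ≤ (A * d) * (A * d) ^ (n + 1) :=
            Nat.mul_le_mul (by omega) (Nat.pow_le_pow_left (Nat.le_mul_of_pos_left _ (by omega)) _)
        _ = (A * d) ^ (n + 2) := by ring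
        _ ≤ (A * d) ^ (A * n) := Nat.pow_le_pow_right (by omega) (by nlinarith)
        _ ≤ k := hkA
    calc 3 * d ^ (n + 1) * k ^ d ≤ k * k ^ d := Nat.mul_le_mul_right _ h1
      _ ≤ k ^ d * k ^ d := Nat.mul_le_mul_right _ (Nat.le_self_pow (by omega) k)
      _ = (k ^ d) ^ 2 := by ring
      _ ≤ M ^ 2 := Nat.pow_le_pow_left hM 2
  · have h1 : 2 * (d + 1) ^ n ≤ k ^ (n + 1) := by
      have hk2 : A * d ≤ k := (Nat.le_self_pow (Nat.mul_pos (by omega) (by omega)).ne' _).trans hkA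
      have h2 : d + 1 ≤ A * d := by nlinarith
      calc 2 * (d + 1) ^ n ≤ k * k ^ n := Nat.mul_le_mul (by omega) (Nat.pow_le_pow_left (by omega) n)
        _ = k ^ (n + 1) := by ring
    obtain ⟨e, rfl⟩ : ∃ e, d = e + 2 := ⟨d - 2, by omega⟩
    calc 2 * (e + 2 + 1) ^ n * k ^ ((e + 2 - 1) * n + 1) ≤ k ^ (n + 1) * k ^ ((e + 2 - 1) * n + 1) :=
          Nat.mul_le_mul_right _ h1
      _ = k ^ ((e + 2) * n + 2) := by
          have : e + 2 - 1 = e + 1 := by omega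
          rw [this]
          ring
      _ ≤ k ^ ((e + 2) * (n + 1)) := Nat.pow_le_pow_right (by omega) (by nlinarith)
      _ = (k ^ (e + 2)) ^ (n + 1) := by rw [pow_mul]
      _ ≤ M ^ (n + 1) := Nat.pow_le_pow_left hM _

end Pool.Agent.Helper18.IC
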