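import Pool.Agent.Helper18.IC.Up

/-!
# Programs for tree evaluation which inspect few cells: the program with a pushdown store
-/

namespace Pool.Agent.Helper18.IC

open Pool.Agent.Helper5.TreeExp

variable {d k : ℕ}

/-! ### procedures -/

/-- The instructions of a procedure. -/
inductive QAct (V : Type) (k : ℕ) (S G : Type)
  | ask (v : V) (next : Fin k → S ⊕ Fin k) : QAct V k S G
  | push (g : G) (next : S) : QAct V k S G
  | pop (next : G → S) : QAct V k S G

/-- A procedure, which returns a value after a query. -/
structure PProc (V : Type) (k : ℕ) (G : Type) where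
  S : Type
  fin : Finite S
  start : S
  act : S → QAct V k S G

/-- From the state `s` with the stack `st` one returns `a` with the stack `st'`, all queried variables satisfy `R`. -/
inductive PProc.Ev {V G : Type} (P : PProc V k G) (I : V → Fin k) (R : V → Prop) : P.S → List G → Fin k → List G → Prop
  | ret {s : P.S} {st : List G} {a : Fin k} {v : V} {next : Fin k → P.S ⊕ Fin k} :
      P.act s = .ask v next → R v → next (I v) = Sum.inr a → PProc.Ev P I R s st a st
  | ask {s s' : P.S} {st st' : List G} {a : Fin k} {v : V} {next : Fin k → P.S ⊕ Fin k} :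
      P.act s = .ask v next → R v → next (I v) = Sum.inl s' → PProc.Ev P I R s' st a st' → PProc.Ev P I R s st a st'
  | push {s s' : P.S} {st st' : List G} {a : Fin k} {g : G} :
      P.act s = .push g s' → PProc.Ev P I R s' (g :: st) a st' → PProc.Ev P I R s st a st'
  | pop {s : P.S} {st st' : List G} {a : Fin k} {g : G} {next : G → P.S} :
      P.act s = .pop next → PProc.Ev P I R (next g) st a st' → PProc.Ev P I R s (g :: st) a st'

/-- The program of a procedure. -/
def PProc.prog {V G : Type} (P : PProc V k G) : PBP V k (P.S ⊕ Fin k) G where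
  start := Sum.inl P.start
  act := Sum.elim (fun s => match P.act s with
    | .ask v next => .ask v next
    | .push g s' => .push g (Sum.inl s')
    | .pop next => .pop (fun g => Sum.inl (next g))) (fun a => .out a)

theorem PProc.Ev.spec {V G : Type} {P : PProc V k G} {I : V → Fin k} {R : V → Prop} {s : P.S} {st st' : List G}
    {a : Fin k} (h : P.Ev I R s st a st') : (∃ m, (P.prog.step I)^[m] (Sum.inl s, st) = (Sum.inr a, st')) ∧
      ∀ j v next, P.prog.act ((P.prog.step I)^[j] (Sum.inl s, st)).1 = .ask v next → R v := by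
  have hstay : ∀ (b : Fin k) (st : List G) (j : ℕ), (P.prog.step I)^[j] (Sum.inr b, st) = (Sum.inr b, st) := by
    intro b st j
    induction j with
    | zero => rfl
    | succ j ih =>
      rw [Function.iterate_succ_apply', ih]
      rfl
  -- one step, then the rest
  have hone : ∀ {c c' : (P.S ⊕ Fin k) × List G} {a : Fin k} {st' : List G}, P.prog.step I c = c' →
      (∀ v next, P.prog.act c.1 = .ask v next → R v) →
      ((∃ m, (P.prog.step I)^[m] c' = (Sum.inr a, st')) ∧
        ∀ j v next, P.prog.act ((P.prog.step I)^[j] c').1 = .ask v next → R v) →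
      (∃ m, (P.prog.step I)^[m] c = (Sum.inr a, st')) ∧
        ∀ j v next, P.prog.act ((P.prog.step I)^[j] c).1 = .ask v next → R v := by
    rintro c c' a st' h1 h2 ⟨⟨m, hm⟩, h3⟩
    refine ⟨⟨m + 1, by rw [Function.iterate_succ_apply, h1]; exact hm⟩, ?_⟩
    intro j v next hj
    rcases j with _ | j
    · exact h2 v next hj
    · rw [Function.iterate_succ_apply, h1] at hj
      exact h3 j v next hj
  induction h with
  | @ret s st a v next hs hR hn =>
    have hact : P.prog.act (Sum.inl s) = .ask v next := by
      show (match P.act s with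
        | .ask v next => PAct.ask v next
        | .push g s' => .push g (Sum.inl s')
        | .pop next => .pop (fun g => Sum.inl (next g))) = _
      rw [hs]
    refine hone (c' := (Sum.inr a, st)) ?_ ?_ ⟨⟨0, rfl⟩, ?_⟩
    · unfold PBP.step
      simp only [hact, hn]
    · intro v' next' h'
      rw [hact] at h'
      cases h'
      exact hR
    · intro j v' next' h'
      rw [hstay] at h'
      exact absurd h' (by simp [PProc.prog])
  | @ask s s1 st st' a v next hs hR hn _ ih =>
    have hact : P.prog.act (Sum.inl s) = .ask v next := by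
      show (match P.act s with
        | .ask v next => PAct.ask v next
        | .push g s' => .push g (Sum.inl s')
        | .pop next => .pop (fun g => Sum.inl (next g))) = _
      rw [hs]
    refine hone (c' := (Sum.inl s1, st)) ?_ ?_ ih
    · unfold PBP.step
      simp only [hact, hn]
    · intro v' next' h'
      rw [hact] at h'
      cases h'
      exact hR
  | @push s s1 st st' a g hs _ ih =>
    have hact : P.prog.act (Sum.inl s) = .push g (Sum.inl s1) := by
      show (match P.act s with
        | .ask v next => PAct.ask v next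
        | .push g s' => .push g (Sum.inl s')
        | .pop next => .pop (fun g => Sum.inl (next g))) = _
      rw [hs]
    refine hone (c' := (Sum.inl s1, g :: st)) ?_ ?_ ih
    · unfold PBP.step
      simp only [hact]
    · intro v' next' h'
      rw [hact] at h'
      cases h'
  | @pop s st st' a g next hs _ ih =>
    have hact : P.prog.act (Sum.inl s) = .pop (fun g => Sum.inl (next g)) := by
      show (match P.act s with
        | .ask v next => PAct.ask v next
        | .push g s' => .push g (Sum.inl s')
        | .pop next => .pop (fun g => Sum.inl (next g))) = _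
      rw [hs]
    refine hone (c' := (Sum.inl (next g), st)) ?_ ?_ ih
    · unfold PBP.step
      simp only [hact]
    · intro v' next' h'
      rw [hact] at h'
      cases h'

/-! ### the recursion -/

/-- The stack symbols: the values of the first `c` children. -/
abbrev Gam (d k : ℕ) : Type := Σ c : Fin d, (Fin c → Fin k)

/-- The states above the procedure for the subtrees: the procedure for the child `c`, the value of a child has been
found, to push the values of the first children, to read the table. -/
abbrev UpS (d k : ℕ) (S : Type) : Type := (Fin d × S) ⊕ (Fin k ⊕ ((Σ c : Fin d, (Fin c → Fin k)) ⊕ (Fin d → Fin k)))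

/-- After the value `b` of the child `c`. -/
def afterSt {S : Type} (b : Fin k) (g : Gam d k) : UpS d k S :=
  if h : g.1.1 + 1 < d then
    Sum.inr (Sum.inr (Sum.inl ⟨⟨g.1.1 + 1, h⟩, fun i => if h' : i.1 < g.1.1 then g.2 ⟨i.1, h'⟩ else b⟩))
  else Sum.inr (Sum.inr (Sum.inr fun i => if h' : i.1 < g.1.1 then g.2 ⟨i.1, h'⟩ else b))

/-- The recursion. -/
def PProc.up {n : ℕ} (hd : 0 < d) (P : PProc (Var d k n) k (Gam d k)) : PProc (Var d k (n + 1)) k (Gam d k) where
  S := UpS d k P.S
  fin := by
    have := P.fin
    infer_instance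
  start := Sum.inr (Sum.inr (Sum.inl ⟨⟨0, hd⟩, fun i => i.elim0⟩))
  act := Sum.elim
    (fun x => match P.act x.2 with
      | .ask v next => .ask (Sum.inr (x.1, v)) (fun a =>
          Sum.elim (fun s' => Sum.inl (Sum.inl (x.1, s'))) (fun b => Sum.inl (Sum.inr (Sum.inl b))) (next a))
      | .push g s' => .push g (Sum.inl (x.1, s'))
      | .pop next => .pop (fun g => Sum.inl (x.1, next g)))
    (Sum.elim (fun b => .pop (fun g => afterSt b g))
      (Sum.elim (fun g => .push g (Sum.inl (g.1, P.start)))
        (fun x => .ask (Sum.inl x) (fun a => Sum.inr a))))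

theorem PProc.up_card {n : ℕ} (hd : 0 < d) (P : PProc (Var d k n) k (Gam d k)) :
    Nat.card (P.up hd).S = d * Nat.card P.S + (k + ((∑ c : Fin d, k ^ c.1) + k ^ d)) := by
  have := P.fin
  show Nat.card (UpS d k P.S) = _
  unfold UpS
  rw [Nat.card_sum, Nat.card_sum, Nat.card_sum, Nat.card_prod, Nat.card_sigma]
  simp

theorem PProc.up_sub {n : ℕ} (hd : 0 < d) (P : PProc (Var d k n) k (Gam d k)) (I : Var d k (n + 1) → Fin k)
    (c : Fin d) {s : P.S} {st st' : List (Gam d k)} {b : Fin k}
    (h : P.Ev (subI I c) (IsRight n (subI I c)) s st b st') {a : Fin k} {st'' : List (Gam d k)}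
    (ha : (P.up hd).Ev I (IsRight (n + 1) I) (Sum.inr (Sum.inl b)) st' a st'') :
    (P.up hd).Ev I (IsRight (n + 1) I) (Sum.inl (c, s)) st a st'' := by
  induction h with
  | @ret s st b v next hs hR hn =>
    refine PProc.Ev.ask (v := Sum.inr (c, v)) (s' := Sum.inr (Sum.inl b)) (next := fun a =>
          Sum.elim (fun s' => Sum.inl (Sum.inl (c, s'))) (fun b => Sum.inl (Sum.inr (Sum.inl b))) (next a)) ?_ hR ?_ ha
    · show (match P.act s with
        | .ask v next => QAct.ask (Sum.inr (c, v)) (fun a =>
            Sum.elim (fun s' => Sum.inl (Sum.inl (c, s'))) (fun b => Sum.inl (Sum.inr (Sum.inl b))) (next a))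
        | .push g s' => .push g (Sum.inl (c, s'))
        | .pop next => .pop (fun g => Sum.inl (c, next g))) = _
      rw [hs]
      rfl
    · show Sum.elim (fun s' => Sum.inl (Sum.inl (c, s'))) (fun b => Sum.inl (Sum.inr (Sum.inl b)))
        (next (subI I c v)) = _
      rw [hn]
      rfl
  | @ask s s1 st st1 b v next hs hR hn _ ih =>
    refine PProc.Ev.ask (v := Sum.inr (c, v)) (s' := Sum.inl (c, s1)) (next := fun a =>
          Sum.elim (fun s' => Sum.inl (Sum.inl (c, s'))) (fun b => Sum.inl (Sum.inr (Sum.inl b))) (next a)) ?_ hR ?_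
          (ih ha)
    · show (match P.act s with
        | .ask v next => QAct.ask (Sum.inr (c, v)) (fun a =>
            Sum.elim (fun s' => Sum.inl (Sum.inl (c, s'))) (fun b => Sum.inl (Sum.inr (Sum.inl b))) (next a))
        | .push g s' => .push g (Sum.inl (c, s'))
        | .pop next => .pop (fun g => Sum.inl (c, next g))) = _
      rw [hs]
      rfl
    · show Sum.elim (fun s' => Sum.inl (Sum.inl (c, s'))) (fun b => Sum.inl (Sum.inr (Sum.inl b)))
        (next (subI I c v)) = _
      rw [hn]
      rfl
  | @push s s1 st st1 b g hs _ ih =>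
    refine PProc.Ev.push (s' := Sum.inl (c, s1)) (g := g) ?_ (ih ha)
    show (match P.act s with
        | .ask v next => QAct.ask (Sum.inr (c, v)) (fun a =>
            Sum.elim (fun s' => Sum.inl (Sum.inl (c, s'))) (fun b => Sum.inl (Sum.inr (Sum.inl b))) (next a))
        | .push g s' => .push g (Sum.inl (c, s'))
        | .pop next => .pop (fun g => Sum.inl (c, next g))) = _
    rw [hs]
    rfl
  | @pop s st st1 b g next hs _ ih =>
    refine PProc.Ev.pop (next := fun g => Sum.inl (c, next g)) ?_ (ih ha)
    show (match P.act s with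
        | .ask v next => QAct.ask (Sum.inr (c, v)) (fun a =>
            Sum.elim (fun s' => Sum.inl (Sum.inl (c, s'))) (fun b => Sum.inl (Sum.inr (Sum.inl b))) (next a))
        | .push g s' => .push g (Sum.inl (c, s'))
        | .pop next => .pop (fun g => Sum.inl (c, next g))) = _
    rw [hs]
    rfl

theorem PProc.up_spec {n : ℕ} (hd : 0 < d) (P : PProc (Var d k n) k (Gam d k))
    (h : ∀ I st, P.Ev I (IsRight n I) P.start st (valI n I) st) (I : Var d k (n + 1) → Fin k)
    (st : List (Gam d k)) : (P.up hd).Ev I (IsRight (n + 1) I) (P.up hd).start st (valI (n + 1) I) st := by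
  have hfin : (P.up hd).Ev I (IsRight (n + 1) I) (Sum.inr (Sum.inr (Sum.inr (args I)))) st (valI (n + 1) I) st := by
    refine PProc.Ev.ret (v := Sum.inl (args I)) (next := fun a => Sum.inr a) rfl ?_ rfl
    show args I = args I
    rfl
  have key : ∀ j (c : Fin d), c.1 + j + 1 = d →
      (P.up hd).Ev I (IsRight (n + 1) I)
        (Sum.inr (Sum.inr (Sum.inl ⟨c, fun i => args I ⟨i.1, i.2.trans c.2⟩⟩))) st (valI (n + 1) I) st := by
    intro j
    induction j with
    | zero =>
      intro c hc
      refine PProc.Ev.push (g := ⟨c, fun i => args I ⟨i.1, i.2.trans c.2⟩⟩) (s' := Sum.inl (c, P.start)) rfl ?_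
      refine PProc.up_sub hd P I c (h (subI I c) _) ?_
      refine PProc.Ev.pop (next := fun g => afterSt (valI n (subI I c)) g) rfl ?_
      have h1 : (afterSt (valI n (subI I c)) ⟨c, fun i => args I ⟨i.1, i.2.trans c.2⟩⟩ : UpS d k P.S) =
          Sum.inr (Sum.inr (Sum.inr (args I))) := by
        unfold afterSt
        rw [dif_neg (by simp only; omega)]
        congr 3
        funext i
        simp only
        split_ifs with h'
        · rfl
        · have hi : i = c := by
            apply Fin.ext
            have := i.2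
            omega
          rw [hi]
          rfl
      rw [h1]
      exact hfin
    | succ j ih =>
      intro c hc
      have hlt : c.1 + 1 < d := by omega
      refine PProc.Ev.push (g := ⟨c, fun i => args I ⟨i.1, i.2.trans c.2⟩⟩) (s' := Sum.inl (c, P.start)) rfl ?_
      refine PProc.up_sub hd P I c (h (subI I c) _) ?_
      refine PProc.Ev.pop (next := fun g => afterSt (valI n (subI I c)) g) rfl ?_
      have h1 : (afterSt (valI n (subI I c)) ⟨c, fun i => args I ⟨i.1, i.2.trans c.2⟩⟩ : UpS d k P.S) =
          Sum.inr (Sum.inr (Sum.inl ⟨⟨c.1 + 1, hlt⟩, fun i => args I ⟨i.1, i.2.trans hlt⟩⟩)) := by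
        unfold afterSt
        rw [dif_pos (by simp only; omega)]
        congr 4
        funext i
        simp only
        split_ifs with h'
        · rfl
        · have hi : (⟨i.1, i.2.trans hlt⟩ : Fin d) = c := by
            apply Fin.ext
            have := i.2
            simp only at this ⊢
            omega
          rw [hi]
          rfl
      rw [h1]
      exact ih ⟨c.1 + 1, hlt⟩ (by simp only; omega)
  have h0 := key (d - 1) ⟨0, hd⟩ (by simp only; omega)
  have hst : (P.up hd).start = Sum.inr (Sum.inr (Sum.inl ⟨⟨0, hd⟩, fun i => args I ⟨i.1, i.2.trans hd⟩⟩)) := by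
    show (Sum.inr (Sum.inr (Sum.inl ⟨⟨0, hd⟩, fun i => i.elim0⟩)) : UpS d k P.S) = _
    congr 4
    funext i
    exact i.elim0
  rw [hst]
  exact h0

theorem exists_pproc (hd : 2 ≤ d) (hk : 2 ≤ k) (n : ℕ) : ∃ P : PProc (Var d k n) k (Gam d k),
    Nat.card P.S + 3 * k ^ d ≤ 3 * d ^ (n + 1) * k ^ d ∧ ∀ I st, P.Ev I (IsRight n I) P.start st (valI n I) st := by
  have hd0 : 0 < d := by omega
  have hkd1 : 1 ≤ k ^ d := Nat.one_le_pow _ _ (by omega)
  induction n with
  | zero =>
    refine ⟨⟨Unit, inferInstance, (), fun _ => .ask () (fun a => Sum.inr a)⟩, ?_, ?_⟩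
    · show Nat.card Unit + 3 * k ^ d ≤ 3 * d ^ (0 + 1) * k ^ d
      simp only [Nat.card_unique, zero_add, pow_one]
      nlinarith
    · intro I st
      exact PProc.Ev.ret (v := ()) (next := fun a => Sum.inr a) rfl trivial rfl
  | succ n ih =>
    obtain ⟨P, h1, h2⟩ := ih
    refine ⟨P.up hd0, ?_, P.up_spec hd0 h2⟩
    rw [PProc.up_card]
    have hs : ∑ c : Fin d, k ^ c.1 ≤ k ^ d := by
      rw [Fin.sum_univ_eq_sum_range (fun i => k ^ i) d]
      exact (Nat.geomSum_lt hk (fun i hi => by simpa using hi)).le
    have hk2 : k ≤ k ^ d := Nat.le_self_pow (by omega) k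
    calc d * Nat.card P.S + (k + ((∑ c : Fin d, k ^ c.1) + k ^ d)) + 3 * k ^ d
        ≤ d * Nat.card P.S + (k ^ d + (k ^ d + k ^ d)) + 3 * k ^ d := by omega
      _ = d * Nat.card P.S + 2 * (3 * k ^ d) := by ring
      _ ≤ d * Nat.card P.S + d * (3 * k ^ d) := Nat.add_le_add_left (Nat.mul_le_mul_right _ hd) _
      _ = d * (Nat.card P.S + 3 * k ^ d) := by ring
      _ ≤ d * (3 * d ^ (n + 1) * k ^ d) := Nat.mul_le_mul_left _ h1
      _ = 3 * d ^ (n + 1 + 1) * k ^ d := by ring

/-- Recursion with a pushdown store: `3 d ^ (n + 1) k ^ d` states, `k ^ d` stack symbols, one entry of each table is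
inspected. -/
theorem pushdown (hd : 2 ≤ d) (hk : 2 ≤ k) (n : ℕ) : ∃ (S G : Type) (_ : Finite S) (_ : Finite G)
    (P : PBP (Var d k n) k S G), Nat.card S ≤ 3 * d ^ (n + 1) * k ^ d ∧ Nat.card G ≤ k ^ d ∧
      ∀ I, P.Outputs I (valI n I) ∧ ∀ v, P.Asks I v → IsRight n I v := by
  obtain ⟨P, h1, h2⟩ := exists_pproc hd hk n
  have hPf := P.fin
  refine ⟨P.S ⊕ Fin k, Gam d k, inferInstance, inferInstance, P.prog, ?_, ?_, ?_⟩
  · rw [Nat.card_sum, Nat.card_eq_fintype_card (α := Fin k), Fintype.card_fin]
    have hk2 : k ≤ k ^ d := Nat.le_self_pow (by omega) k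
    omega
  · unfold Gam
    rw [Nat.card_sigma]
    simp only [Nat.card_eq_fintype_card, Fintype.card_fun, Fintype.card_fin]
    rw [Fin.sum_univ_eq_sum_range (fun i => k ^ i) d]
    exact (Nat.geomSum_lt hk (fun i hi => by simpa using hi)).le
  · intro I
    obtain ⟨⟨m, hm⟩, h3⟩ := (h2 I []).spec
    refine ⟨⟨m, ?_⟩, ?_⟩
    · show P.prog.act ((P.prog.step I)^[m] (Sum.inl P.start, [])).1 = _
      rw [hm]
      rfl
    · rintro v ⟨j, next, hj⟩
      exact h3 j v next hj

end Pool.Agent.Helper18.IC
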