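import Pool.Agent.Helper18.IC.Dec
import Pool.Agent.Helper18.IC.Model

/-!
# Programs for tree evaluation which inspect few cells: the program of the recursion
-/

namespace Pool.Agent.Helper18.IC

open Pool.Agent.Helper5.TreeExp

variable {d k : ℕ}

/-- The variable is the right variable of its node. -/
def IsRight : (n : ℕ) → (Var d k n → Fin k) → Var d k n → Prop
  | 0, _, _ => True
  | n + 1, I, u => Sum.elim (fun x => x = args I) (fun y => IsRight n (subI I y.1) y.2) u

theorem isRight_unique : (n : ℕ) → (I : Var d k n → Fin k) → (u u' : Var d k n) → IsRight n I u → IsRight n I u' →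
    nodeOf n u = nodeOf n u' → u = u'
  | 0, _, _, _, _, _, _ => rfl
  | n + 1, I, Sum.inl x, Sum.inl x', h, h', _ => by
    have h1 : x = args I := h
    have h2 : x' = args I := h'
    rw [h1, h2]
  | n + 1, I, Sum.inl x, Sum.inr (c', u'), _, _, he => by
    have he' : ([] : List (Fin d)) = c' :: nodeOf n u' := he
    exact absurd he' (by simp)
  | n + 1, I, Sum.inr (c, u), Sum.inl x', _, _, he => by
    have he' : c :: nodeOf n u = ([] : List (Fin d)) := he
    exact absurd he' (by simp)
  | n + 1, I, Sum.inr (c, u), Sum.inr (c', u'), h, h', he => by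
    have he' : c :: nodeOf n u = c' :: nodeOf n u' := he
    obtain ⟨hc, hn⟩ := List.cons.inj he'
    subst hc
    have := isRight_unique n (subI I c) u u' h h' hn
    rw [this]

/-- A procedure: in each state a variable is queried, and depending on the answer one goes to another state or
returns a value. -/
structure Proc (V : Type) (k : ℕ) where
  S : Type
  fin : Fintype S
  start : S
  act : S → V × (Fin k → S ⊕ Fin k)

/-- One step. -/
def Proc.step {V : Type} (P : Proc V k) (I : V → Fin k) : P.S ⊕ Fin k → P.S ⊕ Fin k :=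
  Sum.elim (fun s => (P.act s).2 (I (P.act s).1)) Sum.inr

/-- From the state `s` one returns `a`, and all queried variables satisfy `R`. -/
inductive Proc.Ev {V : Type} (P : Proc V k) (I : V → Fin k) (R : V → Prop) : P.S → Fin k → Prop
  | ret {s : P.S} {a : Fin k} : R (P.act s).1 → (P.act s).2 (I (P.act s).1) = Sum.inr a → Proc.Ev P I R s a
  | next {s s' : P.S} {a : Fin k} : R (P.act s).1 → (P.act s).2 (I (P.act s).1) = Sum.inl s' →
      Proc.Ev P I R s' a → Proc.Ev P I R s a

theorem Proc.Ev.spec {V : Type} {P : Proc V k} {I : V → Fin k} {R : V → Prop} {s : P.S} {a : Fin k}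
    (h : P.Ev I R s a) : (∃ m, (P.step I)^[m] (Sum.inl s) = Sum.inr a) ∧
      ∀ j s', (P.step I)^[j] (Sum.inl s) = Sum.inl s' → R (P.act s').1 := by
  have hst : ∀ (b : Fin k) (j : ℕ), (P.step I)^[j] (Sum.inr b) = Sum.inr b := by
    intro b j
    induction j with
    | zero => rfl
    | succ j ih =>
      rw [Function.iterate_succ_apply', ih]
      rfl
  induction h with
  | @ret s a hR h =>
    have h1 : P.step I (Sum.inl s) = Sum.inr a := h
    refine ⟨⟨1, h1⟩, ?_⟩
    intro j s' hj
    rcases j with _ | j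
    · have : s = s' := Sum.inl_injective hj
      rw [← this]
      exact hR
    · rw [Function.iterate_succ_apply, h1, hst] at hj
      exact absurd hj (by simp)
  | @next s s1 a hR h _ ih =>
    have h1 : P.step I (Sum.inl s) = Sum.inl s1 := h
    obtain ⟨⟨m, hm⟩, ih2⟩ := ih
    refine ⟨⟨m + 1, by rw [Function.iterate_succ_apply, h1]; exact hm⟩, ?_⟩
    intro j s' hj
    rcases j with _ | j
    · have : s = s' := Sum.inl_injective hj
      rw [← this]
      exact hR
    · rw [Function.iterate_succ_apply, h1] at hj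
      exact ih2 j s' hj

/-- The program of a procedure. -/
theorem Proc.toBP {V : Type} (P : Proc V k) (R : (V → Fin k) → V → Prop) (F : (V → Fin k) → Fin k)
    (h : ∀ I, P.Ev I (R I) P.start (F I)) :
    ∃ (N : ℕ) (B : BP V k N), N = Nat.card P.S + k ∧
      ∀ I, B.Outputs I (F I) ∧ ∀ m u, obs B I B.start m = Sum.inl u → R I u := by
  have := P.fin
  let e : P.S ⊕ Fin k ≃ Fin (Fintype.card (P.S ⊕ Fin k)) := Fintype.equivFin _
  let B : BP V k (Fintype.card (P.S ⊕ Fin k)) :=
    { start := e (Sum.inl P.start)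
      act := fun q => Sum.elim (fun s => Sum.inl ((P.act s).1, fun a => e ((P.act s).2 a))) Sum.inr (e.symm q) }
  have hact : ∀ x, B.act (e x) =
      Sum.elim (fun s => Sum.inl ((P.act s).1, fun a => e ((P.act s).2 a))) Sum.inr x := by
    intro x
    simp only [B, Equiv.symm_apply_apply]
  have hstep : ∀ I x, B.step I (e x) = e (P.step I x) := by
    intro I x
    unfold BP.step
    rw [hact]
    rcases x with s | b
    · rfl
    · rfl
  have hiter : ∀ I x m, (B.step I)^[m] (e x) = e ((P.step I)^[m] x) := by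
    intro I x m
    induction m with
    | zero => rfl
    | succ m ih => rw [Function.iterate_succ_apply', Function.iterate_succ_apply', ih, hstep]
  refine ⟨_, B, ?_, ?_⟩
  · rw [Fintype.card_sum, Fintype.card_fin, Nat.card_eq_fintype_card]
  · intro I
    obtain ⟨⟨m, hm⟩, h2⟩ := (h I).spec
    refine ⟨⟨m, ?_⟩, ?_⟩
    · show B.act ((B.step I)^[m] (e (Sum.inl P.start))) = _
      rw [hiter, hm, hact]
      rfl
    · intro j u hu
      unfold obs see at hu
      have hs : B.start = e (Sum.inl P.start) := rfl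
      rw [hs, hiter, hact] at hu
      rcases hx : (P.step I)^[j] (Sum.inl P.start) with s | b
      · rw [hx] at hu
        have hu' : (P.act s).1 = u := Sum.inl_injective hu
        rw [← hu']
        exact h2 j s hx
      · rw [hx] at hu
        exact absurd hu (by simp)

/-- After the value `b` of the child `c`. -/
def nextSt {n : ℕ} (P : Proc (Var d k n) k) (c : Fin d) (v : Fin c → Fin k) (b : Fin k) :
    (Σ c : Fin d, (Fin c → Fin k) × P.S) ⊕ (Fin d → Fin k) :=
  if h : c.1 + 1 < d then Sum.inl ⟨⟨c.1 + 1, h⟩, fun i => if h' : i.1 < c.1 then v ⟨i.1, h'⟩ else b, P.start⟩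
  else Sum.inr fun i => if h' : i.1 < c.1 then v ⟨i.1, h'⟩ else b

/-- The recursion: evaluate the children one after the other and keep their values, then read the table. -/
def Proc.up {n : ℕ} (hd : 0 < d) (P : Proc (Var d k n) k) : Proc (Var d k (n + 1)) k where
  S := (Σ c : Fin d, (Fin c → Fin k) × P.S) ⊕ (Fin d → Fin k)
  fin := by
    have := P.fin
    infer_instance
  start := Sum.inl ⟨⟨0, hd⟩, fun i => i.elim0, P.start⟩
  act := Sum.elim
    (fun x => (Sum.inr (x.1, (P.act x.2.2).1), fun a =>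
      Sum.elim (fun s' => Sum.inl (Sum.inl ⟨x.1, x.2.1, s'⟩)) (fun b => Sum.inl (nextSt P x.1 x.2.1 b))
        ((P.act x.2.2).2 a)))
    (fun x => (Sum.inl x, fun a => Sum.inr a))

theorem Proc.up_card {n : ℕ} (hd : 0 < d) (P : Proc (Var d k n) k) :
    Nat.card (P.up hd).S = (∑ c : Fin d, k ^ c.1) * Nat.card P.S + k ^ d := by
  have := P.fin
  show Nat.card ((Σ c : Fin d, (Fin c → Fin k) × P.S) ⊕ (Fin d → Fin k)) = _
  rw [Nat.card_sum, Nat.card_sigma, Finset.sum_mul]
  congr 1
  · apply Finset.sum_congr rfl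
    intro c _
    rw [Nat.card_prod]
    congr 1
    simp
  · simp

theorem Proc.up_sub {n : ℕ} (hd : 0 < d) (P : Proc (Var d k n) k) (I : Var d k (n + 1) → Fin k) (c : Fin d)
    (v : Fin c → Fin k) {s : P.S} {b : Fin k} (h : P.Ev (subI I c) (IsRight n (subI I c)) s b) {a : Fin k}
    (ha : (P.up hd).Ev I (IsRight (n + 1) I) (nextSt P c v b) a) :
    (P.up hd).Ev I (IsRight (n + 1) I) (Sum.inl ⟨c, v, s⟩) a := by
  induction h with
  | @ret s b hR h =>
    refine Proc.Ev.next (s' := nextSt P c v b) hR ?_ ha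
    show Sum.elim (fun s' => Sum.inl (Sum.inl ⟨c, v, s'⟩)) (fun b => Sum.inl (nextSt P c v b))
        ((P.act s).2 (subI I c (P.act s).1)) = _
    rw [h]
    rfl
  | @next s s1 b hR h _ ih =>
    refine Proc.Ev.next (s' := Sum.inl ⟨c, v, s1⟩) hR ?_ (ih ha)
    show Sum.elim (fun s' => Sum.inl (Sum.inl ⟨c, v, s'⟩)) (fun b => Sum.inl (nextSt P c v b))
        ((P.act s).2 (subI I c (P.act s).1)) = _
    rw [h]
    rfl

theorem Proc.up_spec {n : ℕ} (hd : 0 < d) (P : Proc (Var d k n) k)
    (h : ∀ I, P.Ev I (IsRight n I) P.start (valI n I)) (I : Var d k (n + 1) → Fin k) :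
    (P.up hd).Ev I (IsRight (n + 1) I) (P.up hd).start (valI (n + 1) I) := by
  have hfin : (P.up hd).Ev I (IsRight (n + 1) I) (Sum.inr (args I)) (valI (n + 1) I) := by
    refine Proc.Ev.ret ?_ rfl
    show args I = args I
    rfl
  have key : ∀ j (c : Fin d), c.1 + j + 1 = d →
      (P.up hd).Ev I (IsRight (n + 1) I) (Sum.inl ⟨c, fun i => args I ⟨i.1, i.2.trans c.2⟩, P.start⟩)
        (valI (n + 1) I) := by
    intro j
    induction j with
    | zero =>
      intro c hc
      refine Proc.up_sub hd P I c _ (h (subI I c)) ?_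
      have h1 : nextSt P c (fun i => args I ⟨i.1, i.2.trans c.2⟩) (valI n (subI I c)) = Sum.inr (args I) := by
        unfold nextSt
        rw [dif_neg (by omega)]
        congr 1
        funext i
        split_ifs with h'
        · rfl
        · have hi : i = c := by
            apply Fin.ext
            have := i.2
            omega
          rw [hi]
          rfl
      rw [h1]
      exact hfin
    | succ j ih =>
      intro c hc
      refine Proc.up_sub hd P I c _ (h (subI I c)) ?_
      have hlt : c.1 + 1 < d := by omega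
      have h1 : nextSt P c (fun i => args I ⟨i.1, i.2.trans c.2⟩) (valI n (subI I c)) =
          Sum.inl ⟨⟨c.1 + 1, hlt⟩, fun i => args I ⟨i.1, i.2.trans hlt⟩, P.start⟩ := by
        unfold nextSt
        rw [dif_pos hlt]
        congr 3
        funext i
        split_ifs with h'
        · rfl
        · have hi : (⟨i.1, i.2.trans hlt⟩ : Fin d) = c := by
            apply Fin.ext
            have := i.2
            simp only at this ⊢
            omega
          rw [hi]
          rfl
      rw [h1]
      exact ih ⟨c.1 + 1, hlt⟩ (by simp only; omega)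
  have h0 := key (d - 1) ⟨0, hd⟩ (by simp only; omega)
  have hst : (P.up hd).start = Sum.inl ⟨⟨0, hd⟩, fun i => args I ⟨i.1, i.2.trans hd⟩, P.start⟩ := by
    show (Sum.inl ⟨⟨0, hd⟩, fun i => i.elim0, P.start⟩ : (Σ c : Fin d, (Fin c → Fin k) × P.S) ⊕ (Fin d → Fin k)) = _
    congr 3
    funext i
    exact i.elim0
  rw [hst]
  exact h0

theorem exists_proc (hd : 0 < d) (hk : 0 < k) (n : ℕ) : ∃ P : Proc (Var d k n) k,
    Nat.card P.S ≤ (d + 1) ^ n * k ^ ((d - 1) * n + 1) ∧ ∀ I, P.Ev I (IsRight n I) P.start (valI n I) := by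
  induction n with
  | zero =>
    refine ⟨⟨Unit, inferInstance, (), fun _ => ((), fun a => Sum.inr a)⟩, ?_, ?_⟩
    · show Nat.card Unit ≤ _
      simp
      exact hk
    · intro I
      exact Proc.Ev.ret trivial rfl
  | succ n ih =>
    obtain ⟨P, h1, h2⟩ := ih
    refine ⟨P.up hd, ?_, P.up_spec hd h2⟩
    rw [Proc.up_card]
    have hs : ∑ c : Fin d, k ^ c.1 ≤ d * k ^ (d - 1) := by
      calc ∑ c : Fin d, k ^ c.1 ≤ ∑ _c : Fin d, k ^ (d - 1) :=
            Finset.sum_le_sum fun c _ => Nat.pow_le_pow_right hk (by have := c.2; omega)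
        _ = d * k ^ (d - 1) := by simp
    have he : (d - 1) * (n + 1) + 1 = (d - 1) + ((d - 1) * n + 1) := by ring
    have hkd : k ^ d ≤ (d + 1) ^ n * k ^ ((d - 1) * (n + 1) + 1) := by
      calc k ^ d ≤ k ^ ((d - 1) * (n + 1) + 1) := by
            apply Nat.pow_le_pow_right hk
            have : d - 1 ≤ (d - 1) * (n + 1) := Nat.le_mul_of_pos_right _ (Nat.succ_pos n)
            omega
        _ = 1 * k ^ ((d - 1) * (n + 1) + 1) := (one_mul _).symm
        _ ≤ _ := Nat.mul_le_mul_right _ (Nat.one_le_pow _ _ (Nat.succ_pos d))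
    calc (∑ c : Fin d, k ^ c.1) * Nat.card P.S + k ^ d
        ≤ d * k ^ (d - 1) * ((d + 1) ^ n * k ^ ((d - 1) * n + 1)) + (d + 1) ^ n * k ^ ((d - 1) * (n + 1) + 1) :=
          Nat.add_le_add (Nat.mul_le_mul hs h1) hkd
      _ = (d + 1) ^ (n + 1) * k ^ ((d - 1) * (n + 1) + 1) := by
          rw [he, pow_add k (d - 1), pow_succ (d + 1) n]
          ring

/-- The recursion inspects one entry of each table and needs `2 (d + 1) ^ n k ^ ((d - 1) n + 1)` states. -/
theorem upper (hd : 0 < d) (hk : 0 < k) (n : ℕ) : ∃ (N : ℕ) (B : BP (Var d k n) k N),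
    N ≤ 2 * (d + 1) ^ n * k ^ ((d - 1) * n + 1) ∧
    ∀ I, B.Outputs I (valI n I) ∧ ∀ m u, obs B I B.start m = Sum.inl u → IsRight n I u := by
  obtain ⟨P, h1, h2⟩ := exists_proc (k := k) hd hk n
  obtain ⟨N, B, hN, hB⟩ := P.toBP (IsRight n) (valI n) h2
  refine ⟨N, B, ?_, hB⟩
  rw [hN]
  have h3 : k ≤ (d + 1) ^ n * k ^ ((d - 1) * n + 1) := by
    calc k = 1 * k ^ 1 := by simp
      _ ≤ (d + 1) ^ n * k ^ ((d - 1) * n + 1) :=
        Nat.mul_le_mul (Nat.one_le_pow _ _ (Nat.succ_pos d)) (Nat.pow_le_pow_right hk (by omega))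
  calc Nat.card P.S + k ≤ (d + 1) ^ n * k ^ ((d - 1) * n + 1) + (d + 1) ^ n * k ^ ((d - 1) * n + 1) :=
        Nat.add_le_add h1 h3
    _ = _ := by ring

end Pool.Agent.Helper18.IC
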